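import Mathlib

/-! Innermost components of the complement of a compact two-sided set. -/

set_option autoImplicit false

namespace Pool.Schoen

open Filter Set
open scoped Topology

variable {X : Type*} [TopologicalSpace X]

/-- The closed set `Γ` is locally two-sided. -/
structure TwoSided (Γ : Set X) : Prop where
  closed : IsClosed Γ
  loc : ∀ z ∈ Γ, ∃ U A B : Set X, IsOpen U ∧ z ∈ U ∧ IsPreconnected A ∧ IsPreconnected B ∧
    U \ Γ = A ∪ B ∧ U ∩ Γ ⊆ closure A ∧ U ∩ Γ ⊆ closure B ∧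
    ∀ a ∈ A, ∀ b ∈ B, b ∉ connectedComponentIn Γᶜ a

variable [LocallyConnectedSpace X]

theorem mem_comp_of_closure {F : Set X} (hF : IsOpen F) {a y : X} (hy : y ∈ F)
    (h : y ∈ closure (connectedComponentIn F a)) : y ∈ connectedComponentIn F a := by
  obtain ⟨z, hz, hz'⟩ := mem_closure_iff.1 h _ hF.connectedComponentIn (mem_connectedComponentIn hy)
  rw [connectedComponentIn_eq hz', ← connectedComponentIn_eq hz]
  exact mem_connectedComponentIn hy

theorem comp_eq {F : Set X} {a b z : X} (ha : z ∈ connectedComponentIn F a)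
    (hb : z ∈ connectedComponentIn F b) : connectedComponentIn F a = connectedComponentIn F b := by
  rw [connectedComponentIn_eq ha, ← connectedComponentIn_eq hb]

theorem comp_frontier [PreconnectedSpace X] {Γ : Set X} (hΓ : IsClosed Γ) {c : X} {H : Set X}
    {y : X} (hc : c ∉ Γ) (hy : y ∉ closure (connectedComponentIn Γᶜ c))
    (hH : H = connectedComponentIn (closure (connectedComponentIn Γᶜ c))ᶜ y) :
    ∃ x ∈ Γ, x ∈ closure (connectedComponentIn Γᶜ c) ∧ x ∈ closure H := by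
  have hHo : IsOpen H := by
    rw [hH]; exact isClosed_closure.isOpen_compl.connectedComponentIn
  have hHy : y ∈ H := by rw [hH]; exact mem_connectedComponentIn hy
  have hHK : H ⊆ (closure (connectedComponentIn Γᶜ c))ᶜ := by
    rw [hH]; exact connectedComponentIn_subset _ _
  have hcc : c ∈ connectedComponentIn Γᶜ c := mem_connectedComponentIn hc
  obtain ⟨x, hx, hxH⟩ : ∃ x ∈ closure H, x ∉ H := by
    by_contra hcon
    push Not at hcon
    have h1 : IsClopen H := ⟨closure_subset_iff_isClosed.1 hcon, hHo⟩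
    have h2 := h1.eq_univ ⟨y, hHy⟩
    have h3 : c ∈ H := h2 ▸ mem_univ c
    exact hHK h3 (subset_closure hcc)
  have hxK : x ∈ closure (connectedComponentIn Γᶜ c) := by
    by_contra hcon
    apply hxH
    rw [hH]
    rw [hH] at hx
    exact mem_comp_of_closure isClosed_closure.isOpen_compl hcon hx
  refine ⟨x, ?_, hxK, hx⟩
  by_contra hcon
  have h4 := mem_comp_of_closure hΓ.isOpen_compl hcon hxK
  obtain ⟨z, hz, hz'⟩ := mem_closure_iff.1 hx _ hΓ.isOpen_compl.connectedComponentIn h4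
  exact hHK hz' (subset_closure hz)

theorem comp_side {Γ : Set X} (h : TwoSided Γ) {c : X} {H : Set X} {y : X}
    (hH : H = connectedComponentIn (closure (connectedComponentIn Γᶜ c))ᶜ y) {x : X} (hx : x ∈ Γ)
    (hxC : x ∈ closure (connectedComponentIn Γᶜ c)) (hxH : x ∈ closure H) :
    ∃ U, IsOpen U ∧ x ∈ U ∧ ∃ g ∈ H, g ∉ Γ ∧ connectedComponentIn Γᶜ g ⊆ H ∧
      U \ Γ ⊆ connectedComponentIn Γᶜ c ∪ connectedComponentIn Γᶜ g := by
  obtain ⟨U, A, B, hU, hxU, hA, hB, hAB, hcA, hcB, hne⟩ := h.loc x hx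
  have hHK : H ⊆ (closure (connectedComponentIn Γᶜ c))ᶜ := by
    rw [hH]; exact connectedComponentIn_subset _ _
  have key : ∀ A B : Set X, IsPreconnected A → IsPreconnected B → U \ Γ = A ∪ B →
      U ∩ Γ ⊆ closure A → (connectedComponentIn Γᶜ c ∩ A).Nonempty →
      ∃ U, IsOpen U ∧ x ∈ U ∧ ∃ g ∈ H, g ∉ Γ ∧ connectedComponentIn Γᶜ g ⊆ H ∧
        U \ Γ ⊆ connectedComponentIn Γᶜ c ∪ connectedComponentIn Γᶜ g := by
    intro A B hA hB hAB hcA hmeet
    obtain ⟨a, hac, haA⟩ := hmeet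
    have hAΓ : A ⊆ Γᶜ := fun t ht => ((hAB ▸ Or.inl ht : t ∈ U \ Γ)).2
    have hBΓ : B ⊆ Γᶜ := fun t ht => ((hAB ▸ Or.inr ht : t ∈ U \ Γ)).2
    have hAC : A ⊆ connectedComponentIn Γᶜ c := by
      rw [connectedComponentIn_eq hac]
      exact hA.subset_connectedComponentIn haA hAΓ
    obtain ⟨g, hgU, hgH⟩ := mem_closure_iff.1 hxH U hU hxU
    have hgK := hHK hgH
    have hgΓ : g ∉ Γ := fun hg => hgK (closure_mono hAC (hcA ⟨hgU, hg⟩))
    have hgB : g ∈ B := by
      have : g ∈ A ∪ B := hAB ▸ ⟨hgU, hgΓ⟩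
      rcases this with h' | h'
      · exact absurd (subset_closure (hAC h')) hgK
      · exact h'
    have hdisj : ∀ t ∈ connectedComponentIn Γᶜ g, t ∉ closure (connectedComponentIn Γᶜ c) := by
      intro t ht ht'
      obtain ⟨s, hs, hs'⟩ := mem_closure_iff.1 ht' _ h.closed.isOpen_compl.connectedComponentIn ht
      have := comp_eq hs hs'
      exact hgK (subset_closure (this ▸ mem_connectedComponentIn hgΓ))
    refine ⟨U, hU, hxU, g, hgH, hgΓ, ?_, ?_⟩
    · rw [hH] at hgH ⊢
      rw [connectedComponentIn_eq hgH]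
      exact isPreconnected_connectedComponentIn.subset_connectedComponentIn
        (mem_connectedComponentIn hgΓ) hdisj
    · rw [hAB]
      exact union_subset_union hAC (hB.subset_connectedComponentIn hgB hBΓ)
  obtain ⟨a, haU, haC⟩ := mem_closure_iff.1 hxC U hU hxU
  have haΓ : a ∈ U \ Γ := ⟨haU, connectedComponentIn_subset _ _ haC⟩
  rw [hAB] at haΓ
  rcases haΓ with ha | ha
  · exact key A B hA hB hAB hcA ⟨a, haC, ha⟩
  · exact key B A hB hA (by rw [hAB, union_comm]) hcB ⟨a, haC, ha⟩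

theorem finite_comp [PreconnectedSpace X] {Γ : Set X} (h : TwoSided Γ) (hc : IsCompact Γ)
    (hne : Γ.Nonempty) : {C : Set X | ∃ a ∉ Γ, C = connectedComponentIn Γᶜ a}.Finite := by
  classical
  choose! U A B hU hzU hA hB hAB hcA hcB hnot using h.loc
  obtain ⟨t, htΓ, ht⟩ := hc.elim_nhds_subcover U fun z hz => (hU z hz).mem_nhds (hzU z hz)
  have hone : ∀ D : Set X, IsPreconnected D → D ⊆ Γᶜ →
      {C : Set X | ∃ a ∈ D, C = connectedComponentIn Γᶜ a}.Finite := by
    intro D hD hDΓ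
    rcases D.eq_empty_or_nonempty with h0 | ⟨d, hd⟩
    · subst h0
      convert Set.finite_empty
      ext C
      simp
    · refine (Set.finite_singleton (connectedComponentIn Γᶜ d)).subset ?_
      rintro C ⟨a, ha, rfl⟩
      have := hD.subset_connectedComponentIn hd hDΓ ha
      exact (connectedComponentIn_eq this).symm
  have hfin : (⋃ z ∈ t, ({C : Set X | ∃ a ∈ A z, C = connectedComponentIn Γᶜ a} ∪
      {C : Set X | ∃ a ∈ B z, C = connectedComponentIn Γᶜ a})).Finite := by
    refine Set.Finite.biUnion t.finite_toSet fun z hz => Set.Finite.union ?_ ?_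
    · exact hone _ (hA z (htΓ z hz)) fun s hs => ((hAB z (htΓ z hz) ▸ Or.inl hs : s ∈ U z \ Γ)).2
    · exact hone _ (hB z (htΓ z hz)) fun s hs => ((hAB z (htΓ z hz) ▸ Or.inr hs : s ∈ U z \ Γ)).2
  refine hfin.subset ?_
  rintro C ⟨a, ha, rfl⟩
  obtain ⟨x, hx, hxC⟩ : ∃ x ∈ closure (connectedComponentIn Γᶜ a), x ∉ connectedComponentIn Γᶜ a := by
    by_contra hcon
    push Not at hcon
    have h1 : IsClopen (connectedComponentIn Γᶜ a) :=
      ⟨closure_subset_iff_isClosed.1 hcon, h.closed.isOpen_compl.connectedComponentIn⟩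
    have h2 := h1.eq_univ ⟨a, mem_connectedComponentIn ha⟩
    obtain ⟨z, hz⟩ := hne
    exact connectedComponentIn_subset _ _ (h2 ▸ mem_univ z : z ∈ connectedComponentIn Γᶜ a) hz
  have hxΓ : x ∈ Γ := by
    by_contra hcon
    exact hxC (mem_comp_of_closure h.closed.isOpen_compl hcon hx)
  obtain ⟨z, hz, hxz⟩ := mem_iUnion₂.1 (ht hxΓ)
  obtain ⟨s, hsU, hsC⟩ := mem_closure_iff.1 hx (U z) (hU z (htΓ z hz)) hxz
  have hs : s ∈ U z \ Γ := ⟨hsU, connectedComponentIn_subset _ _ hsC⟩
  rw [hAB z (htΓ z hz)] at hs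
  refine mem_iUnion₂.2 ⟨z, hz, ?_⟩
  rcases hs with hs | hs
  · exact Or.inl ⟨s, hs, connectedComponentIn_eq hsC⟩
  · exact Or.inr ⟨s, hs, connectedComponentIn_eq hsC⟩

/-- There is a component, not containing `p`, of the complement of `Γ` whose closure has a connected
complement. -/
theorem exists_leaf [PreconnectedSpace X] {Γ : Set X} (h : TwoSided Γ) (hc : IsCompact Γ)
    (hne : Γ.Nonempty) {p : X} (hp : p ∉ Γ) :
    ∃ a ∉ Γ, p ∉ connectedComponentIn Γᶜ a ∧
      (closure (connectedComponentIn Γᶜ a))ᶜ =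
        connectedComponentIn (closure (connectedComponentIn Γᶜ a))ᶜ p := by
  classical
  set 𝒞 : Set (Set X) := {C : Set X | ∃ a ∉ Γ, C = connectedComponentIn Γᶜ a} with h𝒞
  have hfin : 𝒞.Finite := finite_comp h hc hne
  set 𝒟 : Set (Set X) := {C ∈ 𝒞 | p ∉ C} with h𝒟
  have hDne : 𝒟.Nonempty := by
    obtain ⟨z, hz⟩ := hne
    obtain ⟨U, A, B, hU, hzU, hA, hB, hAB, hcA, hcB, hnot⟩ := h.loc z hz
    obtain ⟨a, haU, haA⟩ := mem_closure_iff.1 (hcA ⟨hzU, hz⟩) U hU hzU
    obtain ⟨b, hbU, hbB⟩ := mem_closure_iff.1 (hcB ⟨hzU, hz⟩) U hU hzU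
    have haΓ : a ∉ Γ := (hAB ▸ Or.inl haA : a ∈ U \ Γ).2
    have hbΓ : b ∉ Γ := (hAB ▸ Or.inr hbB : b ∈ U \ Γ).2
    by_cases hpa : p ∈ connectedComponentIn Γᶜ a
    · refine ⟨connectedComponentIn Γᶜ b, ⟨b, hbΓ, rfl⟩, fun hpb => hnot a haA b hbB ?_⟩
      rw [comp_eq hpa hpb]
      exact mem_connectedComponentIn hbΓ
    · exact ⟨connectedComponentIn Γᶜ a, ⟨a, haΓ, rfl⟩, hpa⟩
  set N : Set X → ℕ := fun C => Set.ncard {D ∈ 𝒞 | Disjoint D (connectedComponentIn (closure C)ᶜ p)}
    with hN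
  obtain ⟨C, hC, hmin⟩ := Set.exists_min_image 𝒟 N (hfin.subset fun _ h => h.1) hDne
  obtain ⟨⟨a, ha, rfl⟩, hpa⟩ := hC
  refine ⟨a, ha, hpa, ?_⟩
  set C := connectedComponentIn Γᶜ a with hCdef
  have hCo : IsOpen C := h.closed.isOpen_compl.connectedComponentIn
  have haC : a ∈ C := mem_connectedComponentIn ha
  have hpK : p ∉ closure C := fun hp' => hpa (mem_comp_of_closure h.closed.isOpen_compl hp hp')
  set Hi := connectedComponentIn (closure C)ᶜ p with hHi
  have hHiK : Hi ⊆ (closure C)ᶜ := connectedComponentIn_subset _ _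
  by_contra hcon
  obtain ⟨y, hyK, hyH⟩ : ∃ y ∈ (closure C)ᶜ, y ∉ Hi := by
    by_contra hcon'
    push Not at hcon'
    exact hcon (Subset.antisymm hcon' hHiK)
  set H := connectedComponentIn (closure C)ᶜ y with hH
  have hHK : H ⊆ (closure C)ᶜ := connectedComponentIn_subset _ _
  have hHHi : ∀ w ∈ H, w ∉ Hi := by
    intro w hw hw'
    have := comp_eq hw hw'
    exact hyH (this ▸ mem_connectedComponentIn hyK : y ∈ connectedComponentIn (closure C)ᶜ p)
  obtain ⟨x, hx, hxC, hxH⟩ := comp_frontier h.closed ha hyK hH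
  obtain ⟨U, hU, hxU, g, hgH, hgΓ, hgsub, hUsub⟩ := comp_side h hH hx hxC hxH
  set C' := connectedComponentIn Γᶜ g with hC'
  have hC'o : IsOpen C' := h.closed.isOpen_compl.connectedComponentIn
  have hgC' : g ∈ C' := mem_connectedComponentIn hgΓ
  have hpC' : p ∉ C' := by
    intro hp'
    exact hHHi p (hgsub hp') (mem_connectedComponentIn hpK)
  -- the component of the complement of `closure C'`
  have hsub1 : Hi ⊆ connectedComponentIn (closure C')ᶜ p := by
    refine isPreconnected_connectedComponentIn.subset_connectedComponentIn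
      (mem_connectedComponentIn hpK) fun w hw hw' => ?_
    have hHio : IsOpen Hi := isClosed_closure.isOpen_compl.connectedComponentIn
    obtain ⟨s, hs, hs'⟩ := mem_closure_iff.1 hw' Hi hHio hw
    exact hHHi s (hgsub hs') hs
  obtain ⟨z, hz, hzC, hzHi⟩ := comp_frontier h.closed ha hpK hHi
  obtain ⟨U', hU', hzU', g', hg'H, hg'Γ, hg'sub, hU'sub⟩ := comp_side h hHi hz hzC hzHi
  have hzC' : z ∉ closure C' := by
    intro hz'
    obtain ⟨w, hwU, hwC'⟩ := mem_closure_iff.1 hz' U' hU' hzU'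
    rcases hU'sub ⟨hwU, connectedComponentIn_subset _ _ hwC'⟩ with hw | hw
    · exact hHK (hgsub hwC') (subset_closure hw)
    · exact hHHi w (hgsub hwC') (hg'sub hw)
  have hCC' : ∀ w ∈ C, w ∉ closure C' := by
    intro w hw hw'
    obtain ⟨s, hs, hs'⟩ := mem_closure_iff.1 hw' C hCo hw
    exact hHK (hgsub hs') (subset_closure hs)
  have hsub2 : C ⊆ connectedComponentIn (closure C')ᶜ p := by
    have h1 : IsPreconnected (insert z Hi) := by
      refine isPreconnected_connectedComponentIn.subset_closure (subset_insert _ _) ?_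
      exact insert_subset hzHi subset_closure
    have h2 : IsPreconnected (insert z C) := by
      refine isPreconnected_connectedComponentIn.subset_closure (subset_insert _ _) ?_
      exact insert_subset hzC subset_closure
    have h3 := h1.union z (mem_insert _ _) (mem_insert _ _) h2
    have hpi : p ∈ Hi := mem_connectedComponentIn hpK
    refine Subset.trans (fun w hw => Or.inr (Or.inr hw)) (h3.subset_connectedComponentIn
      (Or.inl (Or.inr hpi)) ?_)
    rintro w ((rfl | hw) | (rfl | hw))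
    · exact hzC'
    · exact fun hw' => connectedComponentIn_subset _ _ (hsub1 hw) hw'
    · exact hzC'
    · exact hCC' w hw
  have hlt : N C' < N C := by
    refine Set.ncard_lt_ncard ?_ (hfin.subset fun _ h => h.1)
    have hss : {D ∈ 𝒞 | Disjoint D (connectedComponentIn (closure C')ᶜ p)} ⊆
        {D ∈ 𝒞 | Disjoint D (connectedComponentIn (closure C)ᶜ p)} :=
      fun D hD => ⟨hD.1, hD.2.mono_right hsub1⟩
    refine (Set.ssubset_iff_of_subset hss).2 ⟨C, ⟨⟨a, ha, rfl⟩, ?_⟩, fun hC2 => ?_⟩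
    · exact Set.disjoint_left.2 fun w hw hw' => hHiK hw' (subset_closure hw)
    · exact Set.disjoint_left.1 hC2.2 haC (hsub2 haC)
  exact absurd (hmin C' ⟨⟨g, hgΓ, rfl⟩, hpC'⟩) (not_le.2 hlt)

end Pool.Schoen
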