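import Mathlib
import Pool.Agent.H.MP_6c077c_gt.Ix.DescDef
import Pool.Agent.H.MP_6c077c_gt.helper58.Leaf

/-! Innermost regions of a good function. -/

set_option autoImplicit false

namespace Pool.Schoen

open Filter Set Metric
open scoped Topology RealInnerProductSpace

variable {V : Type*} [NormedAddCommGroup V] [InnerProductSpace ℝ V]

/-- Explicit form of a descent direction. -/
theorem Desc1.exists_box {f : V → ℝ} {x v : V} (h : Desc1 f x v) :
    ∃ c δ τ : ℝ, 0 < c ∧ 0 < δ ∧ 0 < τ ∧ ∀ y ∈ ball x δ, ∀ s ∈ Ioo 0 τ,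
      f (y + s • v) ≤ f y - c * s := by
  obtain ⟨c, hc, h1⟩ := h
  rw [eventually_prod_iff] at h1
  obtain ⟨pa, hpa, pb, hpb, h2⟩ := h1
  rw [eventually_prod_iff] at hpb
  obtain ⟨pc, hpc, pd, hpd, h3⟩ := hpb
  rw [eventually_prod_iff] at hpd
  obtain ⟨pe, hpe, pf, hpf, h4⟩ := hpd
  obtain ⟨δ, hδ, hδ'⟩ := Metric.eventually_nhds_iff_ball.1 hpc
  obtain ⟨τ, hτ, hτ'⟩ := (mem_nhdsGT_iff_exists_Ioo_subset (a := (0 : ℝ))).1 hpf
  have hu : pa () := by
    rw [eventually_top] at hpa
    exact hpa ()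
  exact ⟨c, δ, τ, hc, hδ, hτ, fun y hy s hs =>
    h2 hu (h3 (hδ' y hy) (h4 hpe.self_of_nhds (hτ' hs)))⟩

/-- The local picture of a zero with a descent direction. -/
theorem Desc1.two_sided {g : V → ℝ} (hg : Continuous g) {z v : V} (hz : g z = 0)
    (h : Desc1 g z v) :
    ∃ U : Set V, IsOpen U ∧ z ∈ U ∧ IsPreconnected (U ∩ {x | g x < 0}) ∧
      IsPreconnected (U ∩ {x | 0 < g x}) ∧ (∀ x ∈ U, g x = 0 → x ∈ closure (U ∩ {x | g x < 0})) ∧
      ∀ x ∈ U, g x = 0 → x ∈ closure (U ∩ {x | 0 < g x}) := by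
  obtain ⟨c, δ, τ, hc, hδ, hτ, hd⟩ := h.exists_box
  have hv : v ≠ 0 := by
    rintro rfl
    have h1 := hd z (mem_ball_self hδ) (τ / 2) ⟨by positivity, by linarith⟩
    rw [smul_zero, add_zero] at h1
    nlinarith [mul_pos hc hτ]
  have hv0 : 0 < ‖v‖ := norm_pos_iff.2 hv
  set l : V → ℝ := fun y => ⟪v, y - z⟫ / ‖v‖ ^ 2 with hl
  set q : V → V := fun y => z + (y - z - l y • v) with hq
  have hlc : Continuous l := by rw [hl]; fun_prop
  have hqc : Continuous q := by rw [hq]; fun_prop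
  have hlv : ∀ y (s : ℝ), l (y + s • v) = l y + s := by
    intro y s
    rw [hl]
    simp only
    rw [add_sub_right_comm, inner_add_right, inner_smul_right, real_inner_self_eq_norm_sq]
    field_simp
  have hqv : ∀ y (s : ℝ), q (y + s • v) = q y := by
    intro y s
    have := hlv y s
    rw [hq]
    simp only
    rw [this, add_smul]
    abel
  have hqy : ∀ y, y = q y + l y • v := by
    intro y
    rw [hq]
    simp only
    abel
  -- the size of the box
  have hlz : l z = 0 := by rw [hl]; simp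
  have hqz : q z = z := by rw [hq]; simp [hlz]
  obtain ⟨η, hη, hητ, hηδ⟩ : ∃ η : ℝ, 0 < η ∧ 2 * η < τ ∧ η * ‖v‖ < δ / 2 := by
    refine ⟨min (τ / 4) (δ / (4 * ‖v‖)), by positivity, ?_, ?_⟩
    · have := min_le_left (τ / 4) (δ / (4 * ‖v‖)); linarith
    · have h1 := min_le_right (τ / 4) (δ / (4 * ‖v‖))
      calc min (τ / 4) (δ / (4 * ‖v‖)) * ‖v‖ ≤ δ / (4 * ‖v‖) * ‖v‖ := by gcongr
        _ = δ / 4 := by field_simp
        _ < δ / 2 := by linarith
  obtain ⟨ρ, hρ, hρδ, hρg⟩ : ∃ ρ : ℝ, 0 < ρ ∧ ρ ≤ δ / 2 ∧ ∀ y ∈ ball z ρ, |g y| < c * (η / 2) := by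
    have h1 : ∀ᶠ y in 𝓝 z, |g y| < c * (η / 2) := by
      have h2 : Continuous fun y => |g y| := hg.abs
      have h3 : |g z| < c * (η / 2) := by rw [hz, abs_zero]; positivity
      exact h2.continuousAt.eventually_lt continuousAt_const h3
    obtain ⟨ρ, hρ, h2⟩ := Metric.eventually_nhds_iff_ball.1 h1
    exact ⟨min ρ (δ / 2), by positivity, min_le_right _ _, fun y hy =>
      h2 y (ball_subset_ball (min_le_left _ _) hy)⟩
  set U : Set V := {y | q y ∈ ball z ρ ∧ -η < l y ∧ l y < η} with hU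
  have hUo : IsOpen U := (isOpen_ball.preimage hqc).inter
    ((isOpen_lt continuous_const hlc).inter (isOpen_lt hlc continuous_const))
  have hUδ : ∀ y ∈ U, y ∈ ball z δ := by
    rintro y ⟨h1, h2, h3⟩
    rw [mem_ball, dist_eq_norm] at h1 ⊢
    have e : y - z = (q y - z) + l y • v := by
      conv_lhs => rw [hqy y]
      abel
    rw [e]
    have h4 : ‖l y • v‖ ≤ η * ‖v‖ := by
      rw [norm_smul, Real.norm_eq_abs]
      gcongr
      exact (abs_lt.2 ⟨h2, h3⟩).le
    have := norm_add_le (q y - z) (l y • v)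
    linarith
  have hzU : z ∈ U := ⟨by rw [hqz]; exact mem_ball_self hρ, by rw [hlz]; linarith, by rw [hlz]; linarith⟩
  have hmove : ∀ y ∈ U, ∀ s : ℝ, -η < l y + s → l y + s < η → y + s • v ∈ U := by
    rintro y ⟨h1, -, -⟩ s h2 h3
    exact ⟨by rw [hqv]; exact h1, by rw [hlv]; exact h2, by rw [hlv]; exact h3⟩
  -- convexity of slabs
  have hlaff : ∀ y w : V, ∀ a b : ℝ, a + b = 1 → l (a • y + b • w) = a * l y + b * l w := by
    intro y w a b hab
    rw [hl]
    simp only
    have e : a • y + b • w - z = a • (y - z) + b • (w - z) := by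
      have : z = (a + b) • z := by rw [hab, one_smul]
      conv_lhs => rw [this]
      rw [add_smul, smul_sub, smul_sub]; abel
    rw [e, inner_add_right, inner_smul_right, inner_smul_right]
    ring
  have hqaff : ∀ y w : V, ∀ a b : ℝ, a + b = 1 → q (a • y + b • w) = a • q y + b • q w := by
    intro y w a b hab
    have h1 := hlaff y w a b hab
    rw [hq]
    simp only
    rw [h1]
    have : z = (a + b) • z := by rw [hab, one_smul]
    conv_lhs => rw [this]
    simp only [add_smul, smul_sub, smul_add, mul_smul]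
    abel
  have hconv : ∀ S : Set ℝ, Convex ℝ S → Convex ℝ {y | q y ∈ ball z ρ ∧ l y ∈ S} := by
    intro S hS y hy w hw a b ha hb hab
    refine ⟨?_, ?_⟩
    · rw [hqaff y w a b hab]
      exact (convex_ball z ρ) hy.1 hw.1 ha hb hab
    · rw [hlaff y w a b hab]
      exact hS hy.2 hw.2 ha hb hab
  -- the sign of `g` on the slabs
  have htop : ∀ y ∈ U, η / 2 ≤ l y → g y < 0 := by
    intro y hy h1
    have h2 : q y ∈ ball z δ := ball_subset_ball (by linarith) hy.1
    have h3 := hd (q y) h2 (l y) ⟨by linarith, by linarith [hy.2.2]⟩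
    rw [← hqy y] at h3
    have h4 := abs_lt.1 (hρg _ hy.1)
    nlinarith
  have hqs : ∀ y, y - l y • v = q y := fun y => sub_eq_of_eq_add (hqy y)
  have hbot : ∀ y ∈ U, l y ≤ -(η / 2) → 0 < g y := by
    intro y hy h1
    have h3 := hd y (hUδ y hy) (-l y) ⟨by linarith, by linarith [hy.2.1]⟩
    rw [neg_smul, ← sub_eq_add_neg, hqs y] at h3
    have h4 := abs_lt.1 (hρg _ hy.1)
    nlinarith
  have hdown : ∀ y ∈ U, g y ≤ 0 → ∀ s, 0 < s → l y + s < η → g (y + s • v) < 0 := by
    intro y hy h1 s hs h2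
    have h3 := hd y (hUδ y hy) s ⟨hs, by linarith [hy.2.1]⟩
    nlinarith
  have hup : ∀ y ∈ U, 0 ≤ g y → ∀ s, 0 < s → -η < l y - s → 0 < g (y - s • v) := by
    intro y hy h1 s hs h2
    have h5 : y - s • v ∈ U := by
      have := hmove y hy (-s) (by linarith) (by linarith [hy.2.2])
      rwa [neg_smul, ← sub_eq_add_neg] at this
    have h3 := hd (y - s • v) (hUδ _ h5) s ⟨hs, by linarith [hy.2.2]⟩
    rw [sub_add_cancel] at h3
    nlinarith
  have hseg : ∀ y (s : ℝ), IsPreconnected ((fun t : ℝ => y + t • v) '' Icc 0 s) := by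
    intro y s
    exact isPreconnected_Icc.image _ (by fun_prop : Continuous fun t : ℝ => y + t • v).continuousOn
  refine ⟨U, hUo, hzU, ?_, ?_, ?_, ?_⟩
  · have hx0 : z + (η / 2) • v ∈ U := hmove z hzU _ (by rw [hlz]; linarith) (by rw [hlz]; linarith)
    have hl0 : l (z + (η / 2) • v) = η / 2 := by rw [hlv, hlz, zero_add]
    refine isPreconnected_of_forall (z + (η / 2) • v) fun y hy => ?_
    have hT : IsPreconnected {y | q y ∈ ball z ρ ∧ l y ∈ Ico (η / 2) η} :=
      (hconv _ (convex_Ico _ _)).isPreconnected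
    have hTU : {y | q y ∈ ball z ρ ∧ l y ∈ Ico (η / 2) η} ⊆ U ∩ {x | g x < 0} := by
      rintro w ⟨h1, h2, h3⟩
      have hw : w ∈ U := ⟨h1, by linarith, h3⟩
      exact ⟨hw, htop w hw h2⟩
    rcases le_or_gt (η / 2) (l y) with h1 | h1
    · exact ⟨_, hTU, ⟨hx0.1, hl0.ge, by rw [hl0]; linarith⟩, ⟨hy.1.1, h1, hy.1.2.2⟩, hT⟩
    · have hy0 : y ∈ (fun t : ℝ => y + t • v) '' Icc 0 (η / 2 - l y) :=
        ⟨0, ⟨le_refl _, by linarith⟩, by simp⟩
      have hend : y + (η / 2 - l y) • v ∈ {y | q y ∈ ball z ρ ∧ l y ∈ Ico (η / 2) η} :=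
        ⟨by rw [hqv]; exact hy.1.1, by rw [hlv]; linarith, by rw [hlv]; linarith⟩
      have hend' : y + (η / 2 - l y) • v ∈ (fun t : ℝ => y + t • v) '' Icc 0 (η / 2 - l y) :=
        ⟨_, ⟨by linarith, le_refl _⟩, rfl⟩
      refine ⟨(fun t : ℝ => y + t • v) '' Icc 0 (η / 2 - l y) ∪
        {y | q y ∈ ball z ρ ∧ l y ∈ Ico (η / 2) η}, union_subset ?_ hTU,
        Or.inr ⟨hx0.1, hl0.ge, by rw [hl0]; linarith⟩, Or.inl hy0,
        (hseg y (η / 2 - l y)).union _ hend' hend hT⟩
      rintro _ ⟨s, ⟨hs, hs'⟩, rfl⟩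
      rcases eq_or_lt_of_le hs with h0 | h0
      · rw [← h0]; simpa using hy
      · exact ⟨hmove y hy.1 s (by linarith [hy.1.2.1]) (by linarith),
          hdown y hy.1 (le_of_lt hy.2) s h0 (by linarith)⟩
  · have hx0 : z + (-(η / 2)) • v ∈ U :=
      hmove z hzU _ (by rw [hlz]; linarith) (by rw [hlz]; linarith)
    have hl0 : l (z + (-(η / 2)) • v) = -(η / 2) := by rw [hlv, hlz, zero_add]
    refine isPreconnected_of_forall (z + (-(η / 2)) • v) fun y hy => ?_
    have hT : IsPreconnected {y | q y ∈ ball z ρ ∧ l y ∈ Ioc (-η) (-(η / 2))} :=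
      (hconv _ (convex_Ioc _ _)).isPreconnected
    have hTU : {y | q y ∈ ball z ρ ∧ l y ∈ Ioc (-η) (-(η / 2))} ⊆ U ∩ {x | 0 < g x} := by
      rintro w ⟨h1, h2, h3⟩
      have hw : w ∈ U := ⟨h1, h2, by linarith⟩
      exact ⟨hw, hbot w hw h3⟩
    rcases le_or_gt (l y) (-(η / 2)) with h1 | h1
    · exact ⟨_, hTU, ⟨hx0.1, by rw [hl0]; linarith, hl0.le⟩, ⟨hy.1.1, hy.1.2.1, h1⟩, hT⟩
    · have hend : y - (l y + η / 2) • v ∈ {y | q y ∈ ball z ρ ∧ l y ∈ Ioc (-η) (-(η / 2))} := by
        have e : y - (l y + η / 2) • v = y + (-(l y + η / 2)) • v := by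
          rw [neg_smul, sub_eq_add_neg]
        rw [e]
        exact ⟨by rw [hqv]; exact hy.1.1, by rw [hlv]; linarith, by rw [hlv]; linarith⟩
      have hy0 : y ∈ (fun t : ℝ => y - (l y + η / 2) • v + t • v) '' Icc 0 (l y + η / 2) :=
        ⟨l y + η / 2, ⟨by linarith, le_refl _⟩, by simp⟩
      have hend' : y - (l y + η / 2) • v ∈
          (fun t : ℝ => y - (l y + η / 2) • v + t • v) '' Icc 0 (l y + η / 2) :=
        ⟨0, ⟨le_refl _, by linarith⟩, by simp⟩
      refine ⟨(fun t : ℝ => y - (l y + η / 2) • v + t • v) '' Icc 0 (l y + η / 2) ∪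
        {y | q y ∈ ball z ρ ∧ l y ∈ Ioc (-η) (-(η / 2))}, union_subset ?_ hTU,
        Or.inr ⟨hx0.1, by rw [hl0]; linarith, hl0.le⟩, Or.inl hy0,
        (hseg (y - (l y + η / 2) • v) (l y + η / 2)).union _ hend' hend hT⟩
      rintro _ ⟨s, ⟨hs, hs'⟩, rfl⟩
      have e : y - (l y + η / 2) • v + s • v = y - (l y + η / 2 - s) • v := by
        rw [sub_smul (l y + η / 2) s v]; abel
      simp only [e]
      rcases eq_or_lt_of_le hs' with h0 | h0
      · rw [h0, sub_self, zero_smul, sub_zero]; exact hy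
      · have h5 := hmove y hy.1 (-(l y + η / 2 - s)) (by linarith) (by linarith [hy.1.2.2])
        rw [neg_smul, ← sub_eq_add_neg] at h5
        exact ⟨h5, hup y hy.1 (le_of_lt hy.2) _ (by linarith) (by linarith)⟩
  · intro x hx hx0
    have ht : Tendsto (fun s : ℝ => x + s • v) (𝓝[>] 0) (𝓝 x) := by
      have h1 : Continuous fun s : ℝ => x + s • v := by fun_prop
      have h2 : Tendsto (fun s : ℝ => x + s • v) (𝓝 0) (𝓝 (x + (0 : ℝ) • v)) := h1.tendsto 0
      rw [zero_smul, add_zero] at h2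
      exact h2.mono_left nhdsWithin_le_nhds
    refine mem_closure_of_tendsto ht ?_
    have h3 : ∀ᶠ s : ℝ in 𝓝[>] 0, s < η - l x :=
      nhdsWithin_le_nhds (eventually_lt_nhds (by linarith [hx.2.2]))
    filter_upwards [h3, self_mem_nhdsWithin] with s h4 h5
    have h5' : 0 < s := h5
    exact ⟨hmove x hx s (by linarith [hx.2.1]) (by linarith), hdown x hx hx0.le s h5' (by linarith)⟩
  · intro x hx hx0
    have ht : Tendsto (fun s : ℝ => x - s • v) (𝓝[>] 0) (𝓝 x) := by
      have h1 : Continuous fun s : ℝ => x - s • v := by fun_prop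
      have h2 : Tendsto (fun s : ℝ => x - s • v) (𝓝 0) (𝓝 (x - (0 : ℝ) • v)) := h1.tendsto 0
      rw [zero_smul, sub_zero] at h2
      exact h2.mono_left nhdsWithin_le_nhds
    refine mem_closure_of_tendsto ht ?_
    have h3 : ∀ᶠ s : ℝ in 𝓝[>] 0, s < η + l x :=
      nhdsWithin_le_nhds (eventually_lt_nhds (by linarith [hx.2.1]))
    filter_upwards [h3, self_mem_nhdsWithin] with s h4 h5
    have h5' : 0 < s := h5
    have h6 := hmove x hx (-s) (by linarith) (by linarith [hx.2.2])
    rw [neg_smul, ← sub_eq_add_neg] at h6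
    exact ⟨h6, hup x hx hx0.ge s h5' (by linarith)⟩

/-- The zero set of a good function is locally two-sided. -/
theorem Good.twoSided {g : V → ℝ} (hg : Good g) : TwoSided {x | g x = 0} where
  closed := isClosed_singleton.preimage hg.cont
  loc := by
    intro z hz
    obtain ⟨v, hv⟩ := hg.desc z hz
    obtain ⟨U, hU, hzU, h1, h2, h3, h4⟩ := hv.two_sided hg.cont hz
    refine ⟨U, U ∩ {x | g x < 0}, U ∩ {x | 0 < g x}, hU, hzU, h1, h2, ?_, fun x hx => h3 x hx.1 hx.2,
      fun x hx => h4 x hx.1 hx.2, ?_⟩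
    · ext x
      constructor
      · rintro ⟨hx, hx0⟩
        rcases lt_or_gt_of_ne hx0 with h | h
        · exact Or.inl ⟨hx, h⟩
        · exact Or.inr ⟨hx, h⟩
      · rintro (⟨hx, h⟩ | ⟨hx, h⟩)
        · exact ⟨hx, ne_of_lt h⟩
        · exact ⟨hx, ne_of_gt h⟩
    · rintro a ⟨-, ha⟩ b ⟨-, hb⟩ hab
      have hpre : IsPreconnected (connectedComponentIn {x | g x = 0}ᶜ a) :=
        isPreconnected_connectedComponentIn
      have ha0 : a ∈ {x | g x = 0}ᶜ := ne_of_lt ha
      obtain ⟨c, hc, hc0⟩ := hpre.intermediate_value (mem_connectedComponentIn ha0) hab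
        hg.cont.continuousOn ⟨le_of_lt ha, le_of_lt hb⟩
      exact connectedComponentIn_subset _ _ hc hc0

/-- The outside of a ball is connected. -/
theorem isPreconnected_outside (hV : 1 < Module.finrank ℝ V) {R : ℝ} (hR : 0 ≤ R) :
    IsPreconnected {x : V | R < ‖x‖} := by
  have hrank : 1 < Module.rank ℝ V := by
    have := Module.lt_rank_of_lt_finrank hV
    exact_mod_cast this
  have h1 : IsPreconnected (sphere (0 : V) 1) := isPreconnected_sphere hrank 0 1
  have h2 : IsPreconnected (sphere (0 : V) 1 ×ˢ Ioi R) := h1.prod isPreconnected_Ioi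
  have h3 : {x : V | R < ‖x‖} = (fun p : V × ℝ => p.2 • p.1) '' (sphere (0 : V) 1 ×ˢ Ioi R) := by
    ext x
    constructor
    · intro hx
      have hx0 : 0 < ‖x‖ := lt_of_le_of_lt hR hx
      refine ⟨(‖x‖⁻¹ • x, ‖x‖), ⟨?_, hx⟩, ?_⟩
      · rw [mem_sphere_zero_iff_norm, norm_smul, norm_inv, norm_norm, inv_mul_cancel₀ hx0.ne']
      · simp only
        rw [smul_smul, mul_inv_cancel₀ hx0.ne', one_smul]
    · rintro ⟨⟨u, t⟩, ⟨hu, ht⟩, rfl⟩
      have hu' : ‖u‖ = 1 := mem_sphere_zero_iff_norm.1 hu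
      have ht' : R < t := ht
      show R < ‖t • u‖
      rw [norm_smul, hu', mul_one, Real.norm_of_nonneg (hR.trans ht'.le)]
      exact ht'
  rw [h3]
  exact h2.image _ (by fun_prop : Continuous fun p : V × ℝ => p.2 • p.1).continuousOn

/-- **Innermost region.** The zero set of a good function with at least one zero, in dimension at
least two, has an innermost region: a compact connected set `K` with connected complement which is
a relatively open part of `{σ g ≤ 0}`, `σ = 1` or `σ = -1`. -/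
theorem Good.exists_innermost [FiniteDimensional ℝ V] (hV : 1 < Module.finrank ℝ V) {g : V → ℝ}
    (hg : Good g) (hne : ∃ x, g x = 0) :
    ∃ σ : ℝ, (σ = 1 ∨ σ = -1) ∧ ∃ K W : Set V, IsCompact K ∧ IsConnected K ∧ IsConnected Kᶜ ∧
      IsOpen W ∧ K ⊆ W ∧ ∀ x ∈ W, σ * g x ≤ 0 ↔ x ∈ K := by
  have hts := hg.twoSided
  have hcomp : IsCompact {x | g x = 0} := Metric.isCompact_of_isClosed_isBounded hts.closed hg.bdd
  obtain ⟨R, hR0, hR⟩ : ∃ R : ℝ, 0 ≤ R ∧ {x | g x = 0} ⊆ closedBall (0 : V) R := by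
    obtain ⟨R, hR⟩ := hg.bdd.subset_closedBall (0 : V)
    exact ⟨max R 0, le_max_right _ _, hR.trans (closedBall_subset_closedBall (le_max_left _ _))⟩
  haveI : Nontrivial V := Module.nontrivial_of_finrank_pos (R := ℝ) (by omega)
  obtain ⟨p, hp⟩ := exists_norm_eq V (by positivity : 0 ≤ R + 1)
  have hout := isPreconnected_outside hV hR0
  have houtΓ : {x : V | R < ‖x‖} ⊆ {x | g x = 0}ᶜ := by
    intro x hx hx0
    have := hR hx0
    rw [mem_closedBall, dist_zero_right] at this
    exact absurd hx (not_lt.2 this)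
  have hpR : R < ‖p‖ := by rw [hp]; linarith
  have hpΓ : p ∉ {x | g x = 0} := houtΓ hpR
  obtain ⟨a, ha, hpa, hleaf⟩ := exists_leaf hts hcomp hne hpΓ
  set C := connectedComponentIn {x | g x = 0}ᶜ a with hC
  have hCo : IsOpen C := hts.closed.isOpen_compl.connectedComponentIn
  have haC : a ∈ C := mem_connectedComponentIn ha
  have hCpre : IsPreconnected C := isPreconnected_connectedComponentIn
  have hCball : C ⊆ closedBall 0 R := by
    intro w hw
    by_contra hcon
    rw [mem_closedBall, dist_zero_right, not_le] at hcon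
    apply hpa
    rw [hC] at hw ⊢
    rw [connectedComponentIn_eq hw]
    exact hout.subset_connectedComponentIn hcon houtΓ hpR
  have hpK : p ∉ closure C := fun h => hpa (mem_comp_of_closure hts.closed.isOpen_compl hpΓ h)
  have key : ∀ σ : ℝ, σ = 1 ∨ σ = -1 → σ * g a < 0 → ∃ K W : Set V, IsCompact K ∧ IsConnected K ∧
      IsConnected Kᶜ ∧ IsOpen W ∧ K ⊆ W ∧ ∀ x ∈ W, σ * g x ≤ 0 ↔ x ∈ K := by
    intro σ hσ hσa
    have hσ0 : σ ≠ 0 := by rcases hσ with h | h <;> rw [h] <;> norm_num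
    have hloc : ∀ z, g z = 0 → ∃ U : Set V, IsOpen U ∧ z ∈ U ∧
        IsPreconnected (U ∩ {x | σ * g x < 0}) ∧
        ∀ x ∈ U, g x = 0 → x ∈ closure (U ∩ {x | σ * g x < 0}) := by
      intro z hz
      obtain ⟨v, hv⟩ := hg.desc z hz
      obtain ⟨U, hU, hzU, h1, h2, h3, h4⟩ := hv.two_sided hg.cont hz
      rcases hσ with h | h
      · refine ⟨U, hU, hzU, ?_, ?_⟩
        · simpa [h] using h1
        · simpa [h] using h3
      · refine ⟨U, hU, hzU, ?_, ?_⟩
        · simpa [h] using h2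
        · simpa [h] using h4
    have hCneg : ∀ x ∈ C, σ * g x < 0 := by
      intro x hx
      by_contra hcon
      obtain ⟨c, hc, hc0⟩ := hCpre.intermediate_value haC hx
        (continuous_const.mul hg.cont : Continuous fun x => σ * g x).continuousOn
        ⟨hσa.le, not_lt.1 hcon⟩
      have hc1 : g c = 0 := by
        rcases mul_eq_zero.1 hc0 with h | h
        · exact absurd h hσ0
        · exact h
      exact connectedComponentIn_subset _ _ hc hc1
    choose! U hU hzU hpre hcl using hloc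
    refine ⟨closure C, C ∪ ⋃ z ∈ {z | g z = 0 ∧ z ∈ closure C}, U z, ?_, ?_, ?_, ?_, ?_, ?_⟩
    · exact (isCompact_closedBall (0 : V) R).of_isClosed_subset isClosed_closure
        (closure_minimal hCball isClosed_closedBall)
    · have hCc : IsConnected C := ⟨⟨a, haC⟩, hCpre⟩
      exact hCc.closure
    · rw [hleaf]
      exact isConnected_connectedComponentIn_iff.2 hpK
    · exact hCo.union (isOpen_biUnion fun z hz => hU z hz.1)
    · intro x hx
      by_cases hx0 : g x = 0
      · exact Or.inr (mem_biUnion (⟨hx0, hx⟩ : x ∈ {z | g z = 0 ∧ z ∈ closure C}) (hzU x hx0))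
      · exact Or.inl (mem_comp_of_closure hts.closed.isOpen_compl hx0 hx)
    · intro x hx
      constructor
      · intro hx1
        rcases hx with hx | hx
        · exact subset_closure hx
        · obtain ⟨z, ⟨hz0, hzC⟩, hxz⟩ := mem_iUnion₂.1 hx
          have hsub : U z ∩ {x | σ * g x < 0} ⊆ C := by
            obtain ⟨w, hwU, hwC⟩ := mem_closure_iff.1 hzC (U z) (hU z hz0) (hzU z hz0)
            rw [hC] at hwC ⊢
            rw [connectedComponentIn_eq hwC]
            refine (hpre z hz0).subset_connectedComponentIn ⟨hwU, hCneg w hwC⟩ ?_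
            rintro t ⟨-, ht⟩ ht0
            have : g t = 0 := ht0
            have ht' : σ * g t < 0 := ht
            rw [this, mul_zero] at ht'
            exact lt_irrefl _ ht'
          rcases eq_or_lt_of_le hx1 with h0 | h0
          · have hx0 : g x = 0 := by
              rcases mul_eq_zero.1 h0 with h | h
              · exact absurd h hσ0
              · exact h
            exact closure_mono hsub (hcl z hz0 x hxz hx0)
          · exact subset_closure (hsub ⟨hxz, h0⟩)
      · intro hxK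
        have hcl' : IsClosed {x | σ * g x ≤ 0} :=
          isClosed_le (continuous_const.mul hg.cont) continuous_const
        exact closure_minimal (fun t ht => (hCneg t ht).le) hcl' hxK
  rcases lt_or_gt_of_ne (ha : g a ≠ 0) with h | h
  · exact ⟨1, Or.inl rfl, key 1 (Or.inl rfl) (by linarith)⟩
  · exact ⟨-1, Or.inr rfl, key (-1) (Or.inr rfl) (by linarith)⟩

end Pool.Schoen
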