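import Mathlib
import Pool.Agent.H.MP_6c077c_gt.Ix.LiftA
import Pool.Agent.H.MP_6c077c_gt.IxB.Lift
import Pool.Agent.H.MP_6c077c_gt.IxB.LiftBall

/-! A compact set in the plane with connected complement has the lifting property. -/

set_option autoImplicit false

namespace Pool.Schoen

open Filter Set Metric MeasureTheory
open scoped Topology RealInnerProductSpace ContDiff

/-- The direction of `z - a`. -/
noncomputable def dirC (a z : ℂ) : ℂ := (z - a) / (‖z - a‖ : ℝ)

theorem norm_dirC {a z : ℂ} (h : z ≠ a) : ‖dirC a z‖ = 1 := by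
  have h1 : ‖z - a‖ ≠ 0 := norm_ne_zero_iff.2 (sub_ne_zero.2 h)
  unfold dirC
  rw [norm_div, Complex.norm_real, norm_norm, div_self h1]

theorem continuousOn_dirC (a : ℂ) : ContinuousOn (dirC a) {a}ᶜ := by
  unfold dirC
  refine ContinuousOn.div (by fun_prop) (by fun_prop) fun z hz => ?_
  exact Complex.ofReal_ne_zero.2 (norm_ne_zero_iff.2 (sub_ne_zero.2 hz))

theorem Lifts.mul {Y : Type*} [TopologicalSpace Y] {A : Set Y} {u w : Y → ℂ} (hu : Lifts A u)
    (hw : Lifts A w) : Lifts A fun x => u x * w x := by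
  obtain ⟨a, ha, ha'⟩ := hu
  obtain ⟨b, hb, hb'⟩ := hw
  refine ⟨fun x => a x + b x, ha.add hb, fun x hx => ?_⟩
  show u x * w x = _
  rw [ha' x hx, hb' x hx, ← Complex.exp_add]
  push_cast
  ring_nf

theorem Lifts.zpow {Y : Type*} [TopologicalSpace Y] {A : Set Y} {u : Y → ℂ} (hu : Lifts A u)
    (k : ℤ) : Lifts A fun x => u x ^ k := by
  obtain ⟨a, ha, ha'⟩ := hu
  refine ⟨fun x => k * a x, continuousOn_const.mul ha, fun x hx => ?_⟩
  show u x ^ k = _
  rw [ha' x hx, ← Complex.exp_int_mul]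
  push_cast
  ring_nf

theorem glue_contOn {Y Z : Type*} [TopologicalSpace Y] [TopologicalSpace Z] {A B : Set Y}
    (hA : IsClosed A) (hB : IsClosed B) {f g : Y → Z} (hf : ContinuousOn f A)
    (hg : ContinuousOn g B) (he : ∀ x ∈ A ∩ B, f x = g x) :
    ∃ h : Y → Z, ContinuousOn h (A ∪ B) ∧ (∀ x ∈ A, h x = f x) ∧ ∀ x ∈ B, h x = g x := by
  classical
  have h1 : ∀ x ∈ A, (if x ∈ A then f x else g x) = f x := fun x hx => if_pos hx
  have h2 : ∀ x ∈ B, (if x ∈ A then f x else g x) = g x := by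
    intro x hx
    by_cases hxA : x ∈ A
    · rw [if_pos hxA, he x ⟨hxA, hx⟩]
    · rw [if_neg hxA]
  refine ⟨fun x => if x ∈ A then f x else g x, ?_, h1, h2⟩
  exact ContinuousOn.union_of_isClosed (hf.congr h1) (hg.congr h2) hA hB

theorem exp_eq_exp_of_real {x y : ℝ} (h : Complex.exp (x * Complex.I) = Complex.exp (y * Complex.I)) :
    ∃ m : ℤ, x = y + m * (2 * Real.pi) := by
  obtain ⟨m, hm⟩ := Complex.exp_eq_exp_iff_exists_int.1 h
  refine ⟨m, ?_⟩
  have h2 := congrArg Complex.im hm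
  simpa using h2

theorem eq_or_of_sq {s : ℝ} (h : s ^ 2 = 1) : s = 1 ∨ s = -1 := by
  have h1 : (s - 1) * (s + 1) = 0 := by nlinarith
  rcases mul_eq_zero.1 h1 with h2 | h2
  · left; linarith
  · right; linarith

/-- A map of a circle to the circle has a degree. -/
theorem circle_degree (b : ℂ) {r : ℝ} (hr : 0 < r) (w : ℂ → ℂ) (hw : ContinuousOn w (sphere b r))
    (h1 : ∀ z ∈ sphere b r, ‖w z‖ = 1) :
    ∃ k : ℤ, Lifts (sphere b r) fun z => w z * dirC b z ^ (-k) := by
  set T : ℂ → ℝ := fun z => (z - b).re / r with hT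
  have hTc : Continuous T := by
    rw [hT]; fun_prop
  set γ : ℝ → ℝ → ℂ := fun s t => b + r * (t + s * Real.sqrt (1 - t ^ 2) * Complex.I) with hγ
  have hγc : ∀ s, Continuous (γ s) := by
    intro s
    rw [hγ]
    fun_prop
  have hγs : ∀ s, s ^ 2 = 1 → ∀ t ∈ Icc (-1 : ℝ) 1, γ s t ∈ sphere b r := by
    intro s hs t ht
    have h0 : 0 ≤ 1 - t ^ 2 := by nlinarith [ht.1, ht.2]
    rw [mem_sphere, Complex.dist_eq, hγ]
    have e1 : b + r * (t + s * Real.sqrt (1 - t ^ 2) * Complex.I) - b =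
        (r : ℂ) * (t + ((s * Real.sqrt (1 - t ^ 2) : ℝ) : ℂ) * Complex.I) := by
      push_cast; ring
    rw [e1, norm_mul, Complex.norm_real, Real.norm_of_nonneg hr.le, Complex.norm_add_mul_I]
    have e2 : t ^ 2 + (s * Real.sqrt (1 - t ^ 2)) ^ 2 = 1 := by
      rw [mul_pow, Real.sq_sqrt h0, hs]; ring
    rw [e2, Real.sqrt_one, mul_one]
  have hT1 : ∀ z ∈ sphere b r, T z ∈ Icc (-1 : ℝ) 1 := by
    intro z hz
    rw [mem_sphere, Complex.dist_eq] at hz
    have h2 := Complex.abs_re_le_norm (z - b)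
    rw [hz, abs_le] at h2
    rw [hT]
    constructor
    · rw [le_div_iff₀ hr]; linarith
    · rw [div_le_iff₀ hr]; linarith
  have him : ∀ z ∈ sphere b r, ((z - b).im / r) ^ 2 = 1 - T z ^ 2 := by
    intro z hz
    rw [mem_sphere, Complex.dist_eq] at hz
    have h2 : (z - b).re ^ 2 + (z - b).im ^ 2 = r ^ 2 := by
      rw [← hz, ← Complex.normSq_eq_norm_sq, Complex.normSq_apply]; ring
    rw [hT]
    field_simp
    linarith
  have hγT : ∀ s, s ^ 2 = 1 → ∀ z ∈ sphere b r, 0 ≤ s * (z - b).im → γ s (T z) = z := by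
    intro s hs z hz h0
    have h2 : Real.sqrt (1 - T z ^ 2) = s * (z - b).im / r := by
      rw [← him z hz]
      have e : ((z - b).im / r) ^ 2 = (s * (z - b).im / r) ^ 2 := by
        rw [div_pow, div_pow, mul_pow, hs, one_mul]
      rw [e, Real.sqrt_sq (by positivity)]
    have h3 : s * Real.sqrt (1 - T z ^ 2) = (z - b).im / r := by
      rw [h2]
      have : s * (s * (z - b).im / r) = s ^ 2 * ((z - b).im / r) := by ring
      rw [this, hs, one_mul]
    have h4 : γ s (T z) = b + r * ((T z : ℝ) + ((s * Real.sqrt (1 - T z ^ 2) : ℝ) : ℂ) * Complex.I) := by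
      rw [hγ]; push_cast; ring
    have hr' : (r : ℂ) ≠ 0 := Complex.ofReal_ne_zero.2 hr.ne'
    rw [h4, h3, hT]
    have h5 := Complex.re_add_im (z - b)
    push_cast
    field_simp
    rw [h5]
    ring
  have harc : ∀ s, s ^ 2 = 1 → ∃ φ : ℝ → ℝ, ContinuousOn φ (Icc (-1) 1) ∧
      ∀ t ∈ Icc (-1 : ℝ) 1, w (γ s t) = Complex.exp (φ t * Complex.I) := by
    intro s hs
    exact liftS_convex_compact (V := ℝ) isCompact_Icc (convex_Icc _ _) (fun t => w (γ s t))
      (hw.comp (hγc s).continuousOn (hγs s hs)) (fun t ht => h1 _ (hγs s hs t ht))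
  obtain ⟨φ, hφc, hφ⟩ := harc 1 (by norm_num)
  obtain ⟨ψ, hψc, hψ⟩ := harc (-1) (by norm_num)
  have hend : ∀ t : ℝ, t ^ 2 = 1 → γ 1 t = γ (-1) t := by
    intro t ht
    rw [hγ]
    simp only [ht, sub_self, Real.sqrt_zero]
    push_cast
    ring
  have e1 := hφ 1 (by norm_num)
  rw [hend 1 (by norm_num), hψ 1 (by norm_num)] at e1
  have e2 := hφ (-1) (by norm_num)
  rw [hend (-1) (by norm_num), hψ (-1) (by norm_num)] at e2
  obtain ⟨m₁, hm₁⟩ := exp_eq_exp_of_real e1
  obtain ⟨m₂, hm₂⟩ := exp_eq_exp_of_real e2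
  -- `ψ 1 = φ 1 + 2 π m₁`, `ψ (-1) = φ (-1) + 2 π m₂`
  refine ⟨m₁ - m₂, ?_⟩
  have hdir : ∀ s, s ^ 2 = 1 → ∀ z ∈ sphere b r, 0 ≤ s * (z - b).im →
      dirC b z = Complex.exp ((s * Real.arccos (T z) : ℝ) * Complex.I) := by
    intro s hs z hz h0
    have hz' := hz
    rw [mem_sphere, Complex.dist_eq] at hz'
    have h2 := hT1 z hz
    have h3 := hγT s hs z hz h0
    have hr' : (r : ℂ) ≠ 0 := Complex.ofReal_ne_zero.2 hr.ne'
    have h4 : z - b = r * ((T z : ℝ) + s * Real.sqrt (1 - T z ^ 2) * Complex.I) := by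
      conv_lhs => rw [← h3]
      rw [hγ]; ring
    unfold dirC
    rw [hz', h4, mul_div_cancel_left₀ _ hr', Complex.exp_mul_I, ← Complex.ofReal_cos,
      ← Complex.ofReal_sin]
    have hs1 : s = 1 ∨ s = -1 := eq_or_of_sq hs
    rcases hs1 with rfl | rfl
    · rw [one_mul, Real.cos_arccos h2.1 h2.2, Real.sin_arccos]
      push_cast; ring
    · rw [neg_one_mul, Real.cos_neg, Real.sin_neg, Real.cos_arccos h2.1 h2.2, Real.sin_arccos]
      push_cast; ring
  set A : Set ℂ := sphere b r ∩ {z | 0 ≤ (z - b).im} with hA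
  set B : Set ℂ := sphere b r ∩ {z | (z - b).im ≤ 0} with hB
  have hAc : IsClosed A := isClosed_sphere.inter (isClosed_le continuous_const (by fun_prop))
  have hBc : IsClosed B := isClosed_sphere.inter (isClosed_le (by fun_prop) continuous_const)
  have hAB : A ∪ B = sphere b r := by
    ext z
    constructor
    · rintro (h | h)
      · exact h.1
      · exact h.1
    · intro h
      rcases le_total 0 (z - b).im with h' | h'
      · exact Or.inl ⟨h, h'⟩
      · exact Or.inr ⟨h, h'⟩
  obtain ⟨v, hv, hvA, hvB⟩ := glue_contOn hAc hBc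
    (f := fun z => φ (T z) - (m₁ - m₂ : ℝ) * Real.arccos (T z) + m₁ * (2 * Real.pi))
    (g := fun z => ψ (T z) + (m₁ - m₂ : ℝ) * Real.arccos (T z)) (by
      refine ContinuousOn.add (ContinuousOn.sub (hφc.comp hTc.continuousOn fun z hz => hT1 z hz.1)
        ?_) continuousOn_const
      exact (continuous_const.mul (Real.continuous_arccos.comp hTc)).continuousOn) (by
      refine ContinuousOn.add (hψc.comp hTc.continuousOn fun z hz => hT1 z hz.1) ?_
      exact (continuous_const.mul (Real.continuous_arccos.comp hTc)).continuousOn) (by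
      rintro z ⟨⟨hz, h0⟩, -, h0'⟩
      have h2 : (z - b).im = 0 := le_antisymm h0' h0
      have h3 := him z hz
      rw [h2, zero_div] at h3
      have h4 : T z = 1 ∨ T z = -1 := by
        have : T z ^ 2 = 1 := by linarith
        exact eq_or_of_sq this
      rcases h4 with h4 | h4
      · rw [h4, Real.arccos_one]; linarith
      · rw [h4, Real.arccos_neg_one]; linarith)
  rw [hAB] at hv
  refine ⟨v, hv, fun z hz => ?_⟩
  rw [← hAB] at hz
  rcases hz with hz | hz
  · show w z * dirC b z ^ (-(m₁ - m₂)) = _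
    rw [hvA z hz, hdir 1 (by norm_num) z hz.1 (by rw [one_mul]; exact hz.2)]
    have h3 := hφ (T z) (hT1 z hz.1)
    rw [hγT 1 (by norm_num) z hz.1 (by rw [one_mul]; exact hz.2)] at h3
    rw [h3, ← Complex.exp_int_mul, ← Complex.exp_add]
    rw [Complex.exp_eq_exp_iff_exists_int]
    refine ⟨-m₁, ?_⟩
    push_cast
    ring
  · show w z * dirC b z ^ (-(m₁ - m₂)) = _
    rw [hvB z hz, hdir (-1) (by norm_num) z hz.1 (by linarith [hz.2.out])]
    have h3 := hψ (T z) (hT1 z hz.1)
    rw [hγT (-1) (by norm_num) z hz.1 (by linarith [hz.2.out])] at h3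
    rw [h3, ← Complex.exp_int_mul, ← Complex.exp_add]
    congr 1
    push_cast
    ring

/-- If the complement of the compact set `K` is connected and `b` is not in `K`, the direction of
`z - b` lifts on `K`. -/
theorem lifts_dirC {K : Set ℂ} (hK : IsCompact K) (hc : IsConnected Kᶜ) {b : ℂ} (hb : b ∉ K) :
    Lifts K (dirC b) := by
  obtain ⟨R, hR⟩ := hK.isBounded.subset_closedBall (0 : ℂ)
  obtain ⟨c, hcR⟩ : ∃ c : ℂ, c ∉ closedBall (0 : ℂ) R := by
    refine ⟨((|R| + 1 : ℝ) : ℂ), fun h => ?_⟩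
    rw [mem_closedBall, dist_zero_right, Complex.norm_real, Real.norm_of_nonneg (by positivity)] at h
    linarith [le_abs_self R]
  have hcK : c ∉ K := fun h => hcR (hR h)
  have hpc : IsPathConnected Kᶜ := (hK.isClosed.isOpen_compl.isConnected_iff_isPathConnected).1 hc
  obtain ⟨γ, hγ⟩ := hpc.joinedIn c hcK b hb
  have hγc : Continuous γ.extend := γ.continuous_extend
  have hγK : ∀ t, γ.extend t ∉ K := by
    intro t
    have := γ.extend_range ▸ mem_range_self (f := γ.extend) t
    obtain ⟨s, hs⟩ := this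
    rw [← hs]
    exact hγ s
  have h0 : Lifts K (dirC c) := by
    have h1 : LiftS (closedBall (0 : ℂ) R) :=
      liftS_convex_compact (isCompact_closedBall _ _) (convex_closedBall _ _)
    have h2 : Lifts (closedBall (0 : ℂ) R) (dirC c) :=
      h1 _ ((continuousOn_dirC c).mono fun z hz h => hcR (h ▸ hz)) fun z hz =>
        norm_dirC fun h => hcR (h ▸ hz)
    exact h2.mono hR
  have h2 := lifts_homotopy hK (fun t z => dirC (γ.extend t) z) (by
    unfold dirC
    refine ContinuousOn.div (by fun_prop) (by fun_prop) ?_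
    rintro ⟨t, z⟩ ⟨-, hz⟩
    refine Complex.ofReal_ne_zero.2 (norm_ne_zero_iff.2 (sub_ne_zero.2 fun h => ?_))
    exact hγK t (h ▸ hz)) (fun t _ z hz => norm_dirC fun h => hγK t (h ▸ hz)) (by
      simpa using h0)
  simpa using h2

/-- A unit function on the complement of finitely many points outside `K` lifts on `K`. -/
theorem lifts_punct {K : Set ℂ} (hK : IsCompact K) (hc : IsConnected Kᶜ) (Z : Finset ℂ) :
    ∀ V : ℂ → ℂ, ContinuousOn V (Z : Set ℂ)ᶜ → (∀ z ∉ Z, ‖V z‖ = 1) → (∀ z ∈ Z, z ∉ K) →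
      Lifts K V := by
  classical
  induction Z using Finset.induction_on with
  | empty =>
    intro V hV h1 _
    have hV' : Continuous V := by simpa [continuousOn_univ] using hV
    have h2 : Lifts (univ : Set ℂ) V := liftS_univ ℂ V hV'.continuousOn fun z _ => h1 z (by simp)
    exact h2.mono (subset_univ _)
  | insert b Z hbZ ih =>
    intro V hV h1 hZK
    have hbK : b ∉ K := hZK b (Finset.mem_insert_self b Z)
    obtain ⟨r, hr, hrb⟩ : ∃ r, 0 < r ∧ closedBall b r ⊆ (K ∪ (Z : Set ℂ))ᶜ := by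
      have hop : IsOpen (K ∪ (Z : Set ℂ))ᶜ :=
        (hK.isClosed.union Z.finite_toSet.isClosed).isOpen_compl
      have hmem : b ∈ (K ∪ (Z : Set ℂ))ᶜ := by
        rintro (h | h)
        · exact hbK h
        · exact hbZ h
      exact Metric.nhds_basis_closedBall.mem_iff.1 (hop.mem_nhds hmem)
    have hsub : sphere b r ⊆ ((insert b Z : Finset ℂ) : Set ℂ)ᶜ := by
      intro z hz h
      rw [Finset.coe_insert] at h
      rcases h with h | h
      · rw [h, mem_sphere, dist_self] at hz
        exact hr.ne hz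
      · exact hrb (sphere_subset_closedBall hz) (Or.inr h)
    obtain ⟨k, v, hv, hvk⟩ := circle_degree b hr V (hV.mono hsub) (fun z hz => h1 z fun h => hsub hz h)
    obtain ⟨w, hw⟩ : ∃ w : C(ℂ, ℝ), ∀ z ∈ sphere b r, w z = v z := by
      obtain ⟨w, hw⟩ := ContinuousMap.exists_restrict_eq (Y := ℝ) (isClosed_sphere (x := b) (ε := r))
        ⟨(sphere b r).domRestrict v, hv.domRestrict⟩
      refine ⟨w, fun z hz => ?_⟩
      exact congrArg (fun f => f ⟨z, hz⟩) hw
    set V' : ℂ → ℂ := fun z => V z * dirC b z ^ (-k) with hV'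
    have hV'c : ContinuousOn V' ((insert b Z : Finset ℂ) : Set ℂ)ᶜ := by
      refine hV.mul (ContinuousOn.zpow₀ ((continuousOn_dirC b).mono fun z hz h => ?_) _ fun z hz => ?_)
      · exact hz (by rw [Finset.coe_insert]; exact Or.inl h)
      · left
        have : z ≠ b := fun h => hz (by rw [Finset.coe_insert]; exact Or.inl h)
        exact norm_ne_zero_iff.1 (by rw [norm_dirC this]; exact one_ne_zero)
    have hV'1 : ∀ z ∉ insert b Z, ‖V' z‖ = 1 := by
      intro z hz
      have : z ≠ b := fun h => hz (h ▸ Finset.mem_insert_self b Z)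
      rw [hV']
      simp only
      rw [norm_mul, norm_zpow, norm_dirC this, one_zpow, mul_one, h1 z hz]
    have hfr : frontier (closedBall b r) ⊆ sphere b r := frontier_closedBall_subset_sphere
    have hcl : closure {z | ¬ z ∈ closedBall b r} ⊆ (ball b r)ᶜ := by
      refine closure_minimal ?_ isOpen_ball.isClosed_compl
      intro z hz h
      exact hz (ball_subset_closedBall h)
    have hmain : Lifts K (fun z => if z ∈ closedBall b r then Complex.exp (w z * Complex.I) else V' z) := by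
      refine ih _ ?_ ?_ (fun z hz => hZK z (Finset.mem_insert_of_mem hz))
      · refine ContinuousOn.if ?_ ?_ ?_
        · rintro z ⟨-, hz⟩
          have hz' : z ∈ sphere b r := hfr hz
          rw [hw z hz']
          exact (hvk z hz').symm
        · exact (by fun_prop : Continuous fun z => Complex.exp (w z * Complex.I)).continuousOn
        · refine hV'c.mono ?_
          rintro z ⟨hz, hz'⟩ h
          rw [Finset.coe_insert] at h
          rcases h with h | h
          · exact hcl hz' (h ▸ mem_ball_self hr)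
          · exact hz h
      · intro z hz
        by_cases hzb : z ∈ closedBall b r
        · rw [if_pos hzb, Complex.norm_exp_ofReal_mul_I]
        · rw [if_neg hzb]
          refine hV'1 z fun h => ?_
          rcases Finset.mem_insert.1 h with h | h
          · exact hzb (h ▸ mem_closedBall_self hr.le)
          · exact hz h
    have h2 : Lifts K V' := hmain.congr fun z hz => by
      rw [if_neg fun h => hrb h (Or.inl hz)]
    have h3 := h2.mul ((lifts_dirC hK hc hbK).zpow k)
    refine h3.congr fun z hz => ?_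
    have hzb : z ≠ b := fun h => hbK (h ▸ hz)
    have h4 : dirC b z ≠ 0 := norm_ne_zero_iff.1 (by rw [norm_dirC hzb]; exact one_ne_zero)
    show V z * dirC b z ^ (-k) * dirC b z ^ k = V z
    rw [mul_assoc, ← zpow_add₀ h4, neg_add_cancel, zpow_zero, mul_one]

/-- A unit function on `K` is close to a unit function on the complement of finitely many points
outside `K`. -/
theorem exists_punct {K : Set ℂ} (hK : IsCompact K) {u : ℂ → ℂ} (hu : ContinuousOn u K)
    (h1 : ∀ z ∈ K, ‖u z‖ = 1) :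
    ∃ (Z : Finset ℂ) (V : ℂ → ℂ), ContinuousOn V (Z : Set ℂ)ᶜ ∧ (∀ z ∉ Z, ‖V z‖ = 1) ∧
      (∀ z ∈ Z, z ∉ K) ∧ ∀ z ∈ K, ‖u z - V z‖ < 2 := by
  classical
  obtain ⟨R, hR⟩ := hK.isBounded.subset_closedBall (0 : ℂ)
  obtain ⟨g, -, hgK, hgF⟩ := glue_contOn (A := K) (B := (ball (0 : ℂ) (|R| + 1))ᶜ) hK.isClosed
    isOpen_ball.isClosed_compl (f := u) (g := fun _ => (1 : ℂ)) hu continuousOn_const (by
      rintro z ⟨hz, hz'⟩
      refine absurd ?_ hz'
      have := hR hz
      rw [mem_closedBall] at this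
      rw [mem_ball]
      linarith [le_abs_self R])
  have hgc : ContinuousOn g (K ∪ (ball (0 : ℂ) (|R| + 1))ᶜ) :=
    ContinuousOn.union_of_isClosed (hu.congr hgK) (continuousOn_const.congr hgF) hK.isClosed
      isOpen_ball.isClosed_compl
  obtain ⟨U, hU⟩ : ∃ U : C(ℂ, ℂ), ∀ z ∈ K ∪ (ball (0 : ℂ) (|R| + 1))ᶜ, U z = g z := by
    obtain ⟨w, hw⟩ := ContinuousMap.exists_restrict_eq (Y := ℂ)
      (hK.isClosed.union (isOpen_ball (x := (0 : ℂ)) (ε := |R| + 1)).isClosed_compl)
      ⟨(K ∪ (ball (0 : ℂ) (|R| + 1))ᶜ).domRestrict g, hgc.domRestrict⟩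
    exact ⟨w, fun z hz => congrArg (fun f => f ⟨z, hz⟩) hw⟩
  have hU1 : ∀ z ∈ K ∪ (ball (0 : ℂ) (|R| + 1))ᶜ, ‖U z‖ = 1 := by
    intro z hz
    rw [hU z hz]
    rcases hz with h | h
    · rw [hgK z h, h1 z h]
    · rw [hgF z h, norm_one]
  obtain ⟨W, hWs, hWU, -⟩ := U.continuous.exists_contDiff_approx (ε := fun _ => (1 / 4 : ℝ)) 1
    continuous_const (fun _ => by norm_num)
  have hWd : ∀ z, HasFDerivAt W (fderiv ℝ W z) z := fun z =>
    ((hWs.differentiable (by norm_num)) z).hasFDerivAt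
  -- a regular value
  obtain ⟨om, hom, hreg⟩ : ∃ om ∈ ball (0 : ℂ) (1 / 4), om ∉ W '' {z | (fderiv ℝ W z).det = 0} := by
    by_contra hcon
    push Not at hcon
    have h2 : volume (W '' {z | (fderiv ℝ W z).det = 0}) = 0 :=
      addHaar_image_eq_zero_of_det_fderivWithin_eq_zero volume
        (fun z _ => (hWd z).hasFDerivWithinAt) fun z hz => hz
    have h3 : volume (ball (0 : ℂ) (1 / 4)) = 0 := measure_mono_null (fun z hz => hcon z hz) h2
    exact (measure_ball_pos volume (0 : ℂ) (by norm_num : (0 : ℝ) < 1 / 4)).ne' h3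
  set V : ℂ → ℂ := fun z => W z - om with hV
  have hVc : Continuous V := hWs.continuous.sub continuous_const
  have hVU : ∀ z, ‖V z - U z‖ < 1 / 2 := by
    intro z
    have h2 := hWU z
    rw [dist_eq_norm] at h2
    rw [mem_ball, dist_zero_right] at hom
    have h3 : V z - U z = (W z - U z) - om := by rw [hV]; ring
    rw [h3]
    have := norm_sub_le (W z - U z) om
    linarith
  have hV0 : ∀ z ∈ K ∪ (ball (0 : ℂ) (|R| + 1))ᶜ, V z ≠ 0 := by
    intro z hz h
    have h2 := hVU z
    rw [h, zero_sub, norm_neg, hU1 z hz] at h2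
    linarith
  have hfin : {z | V z = 0}.Finite := by
    have hcomp : IsCompact {z | V z = 0} := by
      refine (isCompact_closedBall (0 : ℂ) (|R| + 1)).of_isClosed_subset
        (isClosed_singleton.preimage hVc) fun z hz => ?_
      by_contra hcon
      exact hV0 z (Or.inr fun h => hcon (ball_subset_closedBall h)) hz
    by_contra hinf
    obtain ⟨a, ha, hacc⟩ := exists_nhds_ne_inf_principal_neBot hcomp hinf
    have hdet : (fderiv ℝ V a).det ≠ 0 := by
      intro h
      have e : fderiv ℝ V a = fderiv ℝ W a := by rw [hV]; exact fderiv_sub_const _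
      rw [e] at h
      refine hreg ⟨a, h, ?_⟩
      have : W a - om = 0 := ha
      exact sub_eq_zero.1 this
    have hder : HasFDerivAt V (fderiv ℝ V a) a :=
      ((hWs.differentiable (by norm_num)).sub_const om a).hasFDerivAt
    have hanti : ∃ C, AntilipschitzWith C (fderiv ℝ V a) := by
      have hinj : Function.Injective (fderiv ℝ V a) := by
        have h5 : IsUnit (LinearMap.det ((fderiv ℝ V a : ℂ →L[ℝ] ℂ) : ℂ →ₗ[ℝ] ℂ)) :=
          isUnit_iff_ne_zero.2 hdet
        exact ((LinearMap.isUnit_iff_isUnit_det _).2 h5 |> fun h => (Module.End.isUnit_iff _).1 h).1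
      obtain ⟨C, -, hC⟩ := (fderiv ℝ V a).exists_antilipschitzWith (LinearMap.ker_eq_bot.2 hinj)
      exact ⟨C, hC⟩
    have hev := hder.eventually_ne hanti (c := 0)
    have h6 : ∀ᶠ z in 𝓝[≠] a ⊓ 𝓟 {z | V z = 0}, False := by
      filter_upwards [hev.filter_mono inf_le_left, (le_principal_iff.1 inf_le_right :
        {z | V z = 0} ∈ 𝓝[≠] a ⊓ 𝓟 {z | V z = 0})] with z h7 h8
      exact h7 h8
    have := hacc
    exact h6.exists.elim fun _ h => h
  refine ⟨hfin.toFinset, fun z => V z / (‖V z‖ : ℝ), ?_, ?_, ?_, ?_⟩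
  · refine ContinuousOn.div hVc.continuousOn (by fun_prop) fun z hz => ?_
    refine Complex.ofReal_ne_zero.2 (norm_ne_zero_iff.2 fun h => hz ?_)
    simpa using h
  · intro z hz
    have h2 : V z ≠ 0 := fun h => hz (by simpa using h)
    rw [norm_div, Complex.norm_real, norm_norm, div_self (norm_ne_zero_iff.2 h2)]
  · intro z hz hzK
    exact hV0 z (Or.inl hzK) (by simpa using hz)
  · intro z hz
    have h2 : V z ≠ 0 := hV0 z (Or.inl hz)
    have h3 : ‖V z‖ ≠ 0 := norm_ne_zero_iff.2 h2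
    have h4 := hVU z
    have h5 : U z = u z := by rw [hU z (Or.inl hz), hgK z hz]
    rw [h5] at h4
    have h6 : ‖V z - V z / (‖V z‖ : ℝ)‖ < 1 / 2 := by
      have e : V z - V z / (‖V z‖ : ℝ) = ((‖V z‖ - 1 : ℝ) : ℂ) * (V z / (‖V z‖ : ℝ)) := by
        have : ((‖V z‖ : ℝ) : ℂ) ≠ 0 := Complex.ofReal_ne_zero.2 h3
        push_cast
        field_simp
      rw [e, norm_mul, norm_div, Complex.norm_real, Complex.norm_real, norm_norm, div_self h3,
        mul_one, Real.norm_eq_abs]
      have h7 := abs_norm_sub_norm_le (V z) (u z)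
      rw [h1 z hz] at h7
      linarith
    calc ‖u z - V z / (‖V z‖ : ℝ)‖ = ‖-(V z - u z) + (V z - V z / (‖V z‖ : ℝ))‖ := by
          congr 1; ring
      _ ≤ ‖-(V z - u z)‖ + ‖V z - V z / (‖V z‖ : ℝ)‖ := norm_add_le _ _
      _ < 1 / 2 + 1 / 2 := by rw [norm_neg]; exact add_lt_add h4 h6
      _ < 2 := by norm_num

/-- **Eilenberg's criterion.** A compact set in the plane with connected complement has the
lifting property. -/
theorem liftS_complex {K : Set ℂ} (hK : IsCompact K) (hc : IsConnected Kᶜ) : LiftS K := by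
  intro u hu h1
  obtain ⟨Z, V, hV, hV1, hZK, hVu⟩ := exists_punct hK hu h1
  have h2 : Lifts K V := lifts_punct hK hc Z V hV hV1 hZK
  exact h2.of_close hu (hV.mono fun z hz h => hZK z h hz) h1 hVu

/-- The same in a two-dimensional inner product space. -/
theorem planar_liftS {P : Type*} [NormedAddCommGroup P] [InnerProductSpace ℝ P]
    [FiniteDimensional ℝ P] (hP : Module.finrank ℝ P = 2) {K : Set P} (hK : IsCompact K)
    (hc : IsConnected Kᶜ) : LiftS K := by
  have e : P ≃L[ℝ] ℂ := ContinuousLinearEquiv.ofFinrankEq (by rw [hP, Complex.finrank_real_complex])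
  have h1 : IsCompact (e '' K) := hK.image e.continuous
  have h2 : IsConnected (e '' K)ᶜ := by
    rw [← image_compl_eq e.bijective]
    exact hc.image e e.continuous.continuousOn
  have h3 := liftS_complex h1 h2
  exact LiftS.homeo (e.toHomeomorph.image K).symm h3

end Pool.Schoen
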