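import Pool.Agent.H.MP_6c077c_gt.Gd.Plane
import Pool.Agent.H.MP_6c077c_gt.helper58.Planar
import Pool.Agent.H.MP_6c077c_gt.helper58.Inner

/-! The innermost region of a smooth regular function on the plane is a ball. -/

set_option autoImplicit false

namespace Pool.Schoen

open Filter Set Metric
open scoped Topology RealInnerProductSpace ContDiff

variable {P : Type*} [NormedAddCommGroup P] [InnerProductSpace ℝ P] [FiniteDimensional ℝ P]

/-- A smooth function for a relatively open compact part `K` of `{s g ≤ 0}`. -/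
theorem exists_smooth_part {g : P → ℝ} (hg : ContDiff ℝ ∞ g) (s : ℝ) {K W : Set P}
    (hK : IsCompact K) (hW : IsOpen W) (hKW : K ⊆ W) (hKg : ∀ x ∈ W, s * g x ≤ 0 ↔ x ∈ K) :
    ∃ k : P → ℝ, ContDiff ℝ ∞ k ∧ (∀ x, k x ≤ 0 ↔ x ∈ K) ∧
      ∀ x ∈ K, k =ᶠ[𝓝 x] fun y => s * g y := by
  obtain ⟨χ, h1, h2, h3⟩ :=
    exists_contMDiffMap_one_nhds_of_subset_interior (modelWithCornersSelf ℝ P) (n := (⊤ : ℕ∞))
      hK.isClosed (t := W) (by rwa [hW.interior_eq])
  have hχ : ContDiff ℝ ∞ χ := χ.contMDiff.contDiff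
  have hnear : ∀ x ∈ K, ∀ᶠ y in 𝓝 x, χ y = 1 := fun x hx =>
    h1.filter_mono (nhds_le_nhdsSet hx)
  refine ⟨fun x => (1 - χ x) + χ x * (s * g x),
    (contDiff_const.sub hχ).add (hχ.mul (contDiff_const.mul hg)), fun x => ?_, fun x hx => ?_⟩
  · have h4 := (h3 x).1
    have h5 := (h3 x).2
    constructor
    · intro h
      replace h : (1 - χ x) + χ x * (s * g x) ≤ 0 := h
      by_cases hxW : x ∈ W
      · refine (hKg x hxW).1 ?_
        by_contra hcon
        rw [not_le] at hcon
        rcases eq_or_lt_of_le h4 with h6 | h6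
        · rw [← h6] at h
          norm_num at h
        · nlinarith [mul_pos h6 hcon]
      · rw [h2 x hxW] at h
        norm_num at h
    · intro hx
      have h6 : χ x = 1 := (hnear x hx).self_of_nhds
      have h7 := (hKg x (hKW hx)).2 hx
      show (1 - χ x) + χ x * (s * g x) ≤ 0
      rw [h6]
      linarith
  · filter_upwards [hnear x hx] with y hy
    rw [hy]
    ring

/-- **The innermost region is a disc.** -/
theorem exists_innermost_ball (hP : Module.finrank ℝ P = 2) {g : P → ℝ} (hg : ContDiff ℝ ∞ g)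
    (hb : Bornology.IsBounded {x | g x = 0}) (hreg : ∀ x, g x = 0 → gradient g x ≠ 0)
    (hne : ∃ x, g x = 0) :
    ∃ s : ℝ, (s = 1 ∨ s = -1) ∧ ∃ (K W : Set P) (k : P → ℝ), IsCompact K ∧ IsConnected K ∧
      IsConnected Kᶜ ∧ LiftS K ∧ IsOpen W ∧ K ⊆ W ∧ (∀ x ∈ W, s * g x ≤ 0 ↔ x ∈ K) ∧
      Dom k ∧ (∀ x, k x ≤ 0 ↔ x ∈ K) ∧ (∀ x ∈ K, k =ᶠ[𝓝 x] fun y => s * g y) ∧ IsBall k := by
  have hgood : Good g := good_of_regular hg hb fun x hx => Final_fderiv_ne (hreg x hx)
  obtain ⟨s, hs, K, W, hK, hKc, hKc', hW, hKW, hKg⟩ :=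
    hgood.exists_innermost (by rw [hP]; norm_num) hne
  obtain ⟨k, hk, hk0, hkg⟩ := exists_smooth_part hg s hK hW hKW hKg
  have hs0 : s ≠ 0 := by rcases hs with h | h <;> rw [h] <;> norm_num
  have hset : {x | k x ≤ 0} = K := by
    ext x
    exact hk0 x
  have hlift : LiftS K := planar_liftS hP hK hKc'
  have hD : Dom k := by
    refine ⟨hk, by rw [hset]; exact hK.isBounded, fun x hx => ?_, by rw [hset]; exact hKc,
      by rw [hset]; exact hlift⟩
    have hxK : x ∈ K := (hk0 x).1 hx.le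
    have h1 := hkg x hxK
    have h2 : g x = 0 := by
      have := h1.eq_of_nhds
      rw [hx] at this
      rcases mul_eq_zero.1 this.symm with h | h
      · exact absurd h hs0
      · exact h
    have h3 : gradient k x = gradient (fun y => s * g y) x := by
      unfold gradient
      rw [h1.fderiv_eq]
    have h4 : gradient (fun y => s * g y) x = s • gradient g x := by
      unfold gradient
      rw [fderiv_const_mul (hg.differentiable (by norm_num) x), map_smul]
    rw [h3, h4]
    exact smul_ne_zero hs0 (hreg x h2)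
  exact ⟨s, hs, K, W, k, hK, hKc, hKc', hlift, hW, hKW, hKg, hD, hk0, hkg, ball_plane hP k hD⟩

end Pool.Schoen
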