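import Pool.Agent.H.MP_6c077c_gt.Ix.LiftA
import Pool.Agent.H.MP_6c077c_gt.IxB.Lift
import Pool.Agent.H.MP_6c077c_gt.IxB.LiftSphere
import Pool.Agent.H.MP_6c077c_gt.helper58.Planar

/-! Extension of maps to the circle. -/

set_option autoImplicit false

namespace Pool.Schoen

open Filter Set Metric
open scoped Topology RealInnerProductSpace

/-- Every continuous map of `A` to the circle is the restriction of one of `B`. -/
def ExtS {Y : Type*} [TopologicalSpace Y] (A B : Set Y) : Prop :=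
  ∀ u : Y → ℂ, ContinuousOn u A → (∀ x ∈ A, ‖u x‖ = 1) →
    ∃ U : Y → ℂ, ContinuousOn U B ∧ (∀ x ∈ B, ‖U x‖ = 1) ∧ ∀ x ∈ A, U x = u x

variable {Y : Type*} [TopologicalSpace Y]

theorem ExtS.refl (A : Set Y) : ExtS A A := fun u hu h1 => ⟨u, hu, h1, fun _ _ => rfl⟩

theorem ExtS.mono {A B B' : Set Y} (h : ExtS A B) (hB : B' ⊆ B) : ExtS A B' := by
  intro u hu h1
  obtain ⟨U, hU, hU1, hUe⟩ := h u hu h1
  exact ⟨U, hU.mono hB, fun x hx => hU1 x (hB hx), hUe⟩

theorem ExtS.trans {A B C : Set Y} (h : ExtS A B) (h' : ExtS B C) (hAB : A ⊆ B) : ExtS A C := by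
  intro u hu h1
  obtain ⟨U, hU, hU1, hUe⟩ := h u hu h1
  obtain ⟨U', hU', hU1', hUe'⟩ := h' U hU hU1
  exact ⟨U', hU', hU1', fun x hx => (hUe' x (hAB hx)).trans (hUe x hx)⟩

theorem ExtS.liftS {A B : Set Y} (h : ExtS A B) (hAB : A ⊆ B) (hl : LiftS B) : LiftS A := by
  intro u hu h1
  obtain ⟨U, hU, hU1, hUe⟩ := h u hu h1
  obtain ⟨v, hv, hv'⟩ := hl U hU hU1
  exact ⟨v, hv.mono hAB, fun x hx => (hUe x hx).symm.trans (hv' x (hAB hx))⟩

theorem ExtS.of_map {A B X : Set Y} (h : ExtS A B) {ρ : Y → Y} (hρ : ContinuousOn ρ X)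
    (hm : ∀ x ∈ X, ρ x ∈ B) (hid : ∀ x ∈ A, ρ x = x) : ExtS A X := by
  intro u hu h1
  obtain ⟨U, hU, hU1, hUe⟩ := h u hu h1
  refine ⟨fun x => U (ρ x), hU.comp hρ hm, fun x hx => hU1 _ (hm x hx), fun x hx => ?_⟩
  show U (ρ x) = u x
  rw [hid x hx, hUe x hx]

theorem ExtS.glue {A B C : Set Y} (hB : IsClosed B) (hC : IsClosed C) (h : ExtS A B)
    (h' : ExtS A C) (hBC : B ∩ C ⊆ A) : ExtS A (B ∪ C) := by
  intro u hu h1
  obtain ⟨U, hU, hU1, hUe⟩ := h u hu h1
  obtain ⟨U', hU', hU1', hUe'⟩ := h' u hu h1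
  obtain ⟨w, hw, hwB, hwC⟩ := glue_contOn hB hC hU hU' fun x hx => by
    rw [hUe x (hBC hx), hUe' x (hBC hx)]
  by_cases hAB : ∀ x ∈ A, w x = u x
  · refine ⟨w, hw, ?_, hAB⟩
    rintro x (hx | hx)
    · rw [hwB x hx]; exact hU1 x hx
    · rw [hwC x hx]; exact hU1' x hx
  · classical
    refine ⟨fun x => if x ∈ B then U x else U' x, ?_, ?_, ?_⟩
    · refine hw.congr ?_
      rintro x hx
      by_cases hxB : x ∈ B
      · simp only [if_pos hxB]; rw [hwB x hxB]
      · simp only [if_neg hxB]; rw [hwC x (hx.resolve_left hxB)]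
    · rintro x hx
      by_cases hxB : x ∈ B
      · simp only [if_pos hxB]; exact hU1 x hxB
      · simp only [if_neg hxB]; exact hU1' x (hx.resolve_left hxB)
    · intro x hx
      by_cases hxB : x ∈ B
      · simp only [if_pos hxB]; exact hUe x hx
      · simp only [if_neg hxB]; exact hUe' x hx

theorem LiftS.of_maps {Z : Type*} [TopologicalSpace Z] {A : Set Y} {B : Set Z} (h : LiftS A)
    {φ : Y → Z} {ψ : Z → Y} (hφ : ContinuousOn φ A) (hψ : ContinuousOn ψ B)
    (hφm : ∀ x ∈ A, φ x ∈ B) (hψm : ∀ x ∈ B, ψ x ∈ A) (hr : ∀ x ∈ B, φ (ψ x) = x) : LiftS B := by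
  intro u hu h1
  obtain ⟨v, hv, hv'⟩ := h (fun x => u (φ x)) (hu.comp hφ hφm) fun x hx => h1 _ (hφm x hx)
  refine ⟨fun x => v (ψ x), hv.comp hψ hψm, fun x hx => ?_⟩
  have := hv' (ψ x) (hψm x hx)
  rwa [hr x hx] at this

theorem liftS_empty : LiftS (∅ : Set Y) :=
  fun _ _ _ => ⟨fun _ => 0, continuousOn_empty _, fun _ hx => absurd hx (notMem_empty _)⟩

theorem liftS_singleton (a : Y) : LiftS ({a} : Set Y) := by
  intro u _ h1
  refine ⟨fun _ => Complex.arg (u a), continuousOn_const, fun x hx => ?_⟩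
  rw [mem_singleton_iff.1 hx]
  have h4 := Complex.norm_mul_exp_arg_mul_I (u a)
  rw [h1 a rfl, Complex.ofReal_one, one_mul] at h4
  exact h4.symm

theorem liftS_pair [T1Space Y] (a b : Y) : LiftS ({a, b} : Set Y) := by
  by_cases h : a = b
  · subst h
    rw [pair_eq_singleton]
    exact liftS_singleton a
  · have := LiftS.union (A := {a}) (B := {b}) isClosed_singleton isClosed_singleton
      (liftS_singleton a) (liftS_singleton b) (by
        have : ({a} ∩ {b} : Set Y) = ∅ := by
          ext x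
          simp only [mem_inter_iff, mem_singleton_iff, mem_empty_iff_false, iff_false, not_and]
          rintro rfl
          exact h
        rw [this]
        exact isPreconnected_empty)
    rwa [singleton_union] at this

/-- Spheres of all dimensions but one have the lifting property. -/
theorem liftS_sphere_ne_two {E : Type*} [NormedAddCommGroup E] [InnerProductSpace ℝ E]
    [FiniteDimensional ℝ E] (hE : Module.finrank ℝ E ≠ 2) : LiftS (sphere (0 : E) 1) := by
  rcases Nat.lt_or_ge 2 (Module.finrank ℝ E) with h3 | h3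
  · exact liftS_sphere h3
  · have h4 : Module.finrank ℝ E = 0 ∨ Module.finrank ℝ E = 1 := by omega
    rcases h4 with h4 | h4
    · have : Subsingleton E := Module.finrank_zero_iff.1 h4
      have h5 : sphere (0 : E) 1 = ∅ := by
        ext x
        simp only [mem_sphere_iff_norm, sub_zero, mem_empty_iff_false, iff_false]
        rw [Subsingleton.elim x 0, norm_zero]
        exact zero_ne_one
      rw [h5]
      exact liftS_empty
    · haveI : Nontrivial E := Module.nontrivial_of_finrank_pos (R := ℝ) (by omega)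
      obtain ⟨e, he⟩ := exists_norm_eq E (zero_le_one (α := ℝ))
      have he0 : e ≠ 0 := by
        rintro rfl
        simp at he
      have h5 : sphere (0 : E) 1 = {e, -e} := by
        ext x
        simp only [mem_sphere_iff_norm, sub_zero, mem_insert_iff, mem_singleton_iff]
        constructor
        · intro hx
          obtain ⟨c, rfl⟩ := (finrank_eq_one_iff_of_nonzero' e he0).1 h4 x
          rw [norm_smul, he, mul_one, Real.norm_eq_abs] at hx
          rcases (abs_eq (zero_le_one (α := ℝ))).1 hx with h | h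
          · left; rw [h, one_smul]
          · right; rw [h, neg_smul, one_smul]
        · rintro (rfl | rfl)
          · exact he
          · rw [norm_neg]; exact he
      rw [h5]
      exact liftS_pair e (-e)

/-- A compact set which is deformed into a subset with the lifting property. -/
theorem liftS_deform {Z : Type*} [PseudoMetricSpace Z] {A B : Set Z} (hA : IsCompact A)
    (hB : LiftS B) (G : ℝ → Z → Z)
    (hG : ContinuousOn (fun p : ℝ × Z => G p.1 p.2) (Icc (0 : ℝ) 1 ×ˢ A))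
    (hm : ∀ t ∈ Icc (0 : ℝ) 1, ∀ x ∈ A, G t x ∈ A) (h0 : ∀ x ∈ A, G 0 x = x)
    (h1 : ∀ x ∈ A, G 1 x ∈ B) (hBA : B ⊆ A) : LiftS A := by
  intro u hu hn
  obtain ⟨v, hv, hv'⟩ := hB u (hu.mono hBA) fun x hx => hn x (hBA hx)
  have hG1 : ContinuousOn (G 1) A := by
    have h2 : ContinuousOn (fun x : Z => (((1 : ℝ), x) : ℝ × Z)) A :=
      (continuous_const.prodMk continuous_id).continuousOn
    exact hG.comp h2 fun x hx => ⟨⟨zero_le_one, le_rfl⟩, hx⟩
  have h3 : Lifts A ((fun (t : ℝ) (x : Z) => u (G (1 - t) x)) 1) := by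
    refine lifts_homotopy hA (fun t x => u (G (1 - t) x)) ?_ ?_ ?_
    · have h4 : ContinuousOn (fun p : ℝ × Z => ((1 - p.1, p.2) : ℝ × Z)) (Icc (0 : ℝ) 1 ×ˢ A) :=
        ((continuous_const.sub continuous_fst).prodMk continuous_snd).continuousOn
      have h6 : ∀ p ∈ Icc (0 : ℝ) 1 ×ˢ A, ((1 - p.1, p.2) : ℝ × Z) ∈ Icc (0 : ℝ) 1 ×ˢ A := by
        rintro p ⟨hp, hpA⟩
        exact ⟨⟨by linarith [hp.2], by linarith [hp.1]⟩, hpA⟩
      have h5 := hG.comp h4 h6
      exact hu.comp h5 fun p hp => hm _ (h6 p hp).1 _ hp.2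
    · intro t ht x hx
      exact hn _ (hm _ ⟨by linarith [ht.2], by linarith [ht.1]⟩ x hx)
    · refine ⟨fun x => v (G 1 x), hv.comp hG1 h1, fun x hx => ?_⟩
      simp only [sub_zero]
      exact hv' _ (h1 x hx)
  refine h3.congr fun x hx => ?_
  simp only [sub_self]
  rw [h0 x hx]

section boxes

variable {V : Type*} [NormedAddCommGroup V] [InnerProductSpace ℝ V] [FiniteDimensional ℝ V]

theorem ExtS.union {A K : Set V} (hA : IsClosed A) (hK : IsClosed K) (h : LiftS (A ∩ K)) :
    ExtS A (A ∪ K) := fun _ hu h1 => extend_unit hA hK hu h1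
      (h _ (hu.mono inter_subset_left) fun x hx => h1 x hx.1)

/-- Extension over finitely many pairwise disjoint closed sets. -/
theorem ExtS.boxes {A : Set V} (hA : IsClosed A) (L : V → Set V) (P : Finset V)
    (hL : ∀ p ∈ P, IsClosed (L p)) (hd : ∀ p ∈ P, ∀ q ∈ P, p ≠ q → Disjoint (L p) (L q))
    (h : ∀ p ∈ P, LiftS (A ∩ L p)) : ExtS A (A ∪ ⋃ p ∈ P, L p) := by
  classical
  revert hL hd h
  refine Finset.induction_on P ?_ ?_
  · intro _ _ _
    simpa using ExtS.refl A
  · intro a s ha ih hL hd h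
    have ih' := ih (fun p hp => hL p (Finset.mem_insert_of_mem hp))
      (fun p hp q hq => hd p (Finset.mem_insert_of_mem hp) q (Finset.mem_insert_of_mem hq))
      (fun p hp => h p (Finset.mem_insert_of_mem hp))
    have hcl : IsClosed (⋃ p ∈ s, L p) :=
      s.finite_toSet.isClosed_biUnion fun p hp => hL p (Finset.mem_insert_of_mem hp)
    have h1 : (A ∪ ⋃ p ∈ s, L p) ∩ L a = A ∩ L a := by
      ext x
      constructor
      · rintro ⟨hx | hx, hxa⟩
        · exact ⟨hx, hxa⟩
        · exfalso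
          obtain ⟨p, hp, hxp⟩ := mem_iUnion₂.1 hx
          have hne : p ≠ a := by
            rintro rfl
            exact ha hp
          exact (Set.disjoint_left.1 (hd p (Finset.mem_insert_of_mem hp) a
            (Finset.mem_insert_self a s) hne)) hxp hxa
      · rintro ⟨hx, hxa⟩
        exact ⟨Or.inl hx, hxa⟩
    have h2 : ExtS (A ∪ ⋃ p ∈ s, L p) ((A ∪ ⋃ p ∈ s, L p) ∪ L a) := by
      refine ExtS.union (hA.union hcl) (hL a (Finset.mem_insert_self a s)) ?_
      rw [h1]
      exact h a (Finset.mem_insert_self a s)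
    have h3 := ih'.trans h2 subset_union_left
    have h4 : (A ∪ ⋃ p ∈ s, L p) ∪ L a = A ∪ ⋃ p ∈ insert a s, L p := by
      rw [Finset.set_biUnion_insert, union_assoc, union_comm (⋃ p ∈ s, L p) (L a)]
    rwa [h4] at h3

end boxes

end Pool.Schoen
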