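import Pool.Agent.H.MP_6c077c_gt.helper58.ExtLoc
import Pool.Agent.H.MP_6c077c_gt.Al.Start
import Pool.Agent.H.MP_6c077c_gt.Gd.BaseDef
import Pool.Agent.H.MP_6c077c_gt.Ix.DescC

/-! A slice inherits the lifting property when every map to the circle extends over both sides. -/

set_option autoImplicit false

namespace Pool.Schoen

open Filter Set Metric
open scoped Topology RealInnerProductSpace ContDiff

variable {V : Type*} [NormedAddCommGroup V] [InnerProductSpace ℝ V] [FiniteDimensional ℝ V]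

/-- The part of the domain with heights in `[c, t]`. -/
def layS (F : V → ℝ) (e : V) (c t : ℝ) : Set V := {x | F x ≤ 0 ∧ c ≤ ⟪e, x⟫ ∧ ⟪e, x⟫ ≤ t}

omit [FiniteDimensional ℝ V] in
theorem layS_closed {F : V → ℝ} (hF : Continuous F) (e : V) (c t : ℝ) :
    IsClosed (layS F e c t) := by
  have hz : Continuous fun x : V => ⟪e, x⟫ := continuous_const.inner continuous_id
  exact (isClosed_le hF continuous_const).inter
    ((isClosed_le continuous_const hz).inter (isClosed_le hz continuous_const))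

omit [FiniteDimensional ℝ V] in
theorem layS_mono {F : V → ℝ} {e : V} {c s t : ℝ} (h : s ≤ t) : layS F e c s ⊆ layS F e c t :=
  fun _ hx => ⟨hx.1, hx.2.1, hx.2.2.trans h⟩

/-- On a compact set a combination of `f` and `g` is positive. -/
theorem exists_combo {Y : Type*} [TopologicalSpace Y] {K : Set Y} (hK : IsCompact K)
    {f g : Y → ℝ} (hf : Continuous f) (hg : Continuous g) (hg0 : ∀ x, 0 ≤ g x)
    (h : ∀ x ∈ K, g x = 0 → 0 < f x) : ∃ l : ℝ, 0 ≤ l ∧ ∀ x ∈ K, 0 < f x + l * g x := by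
  have hK1 : IsCompact (K ∩ {x | f x ≤ 0}) := hK.inter_right (isClosed_le hf continuous_const)
  obtain ⟨m, hm, hm'⟩ := hK1.exists_forall_le' hg.continuousOn (a := 0) (by
    rintro x ⟨hx, hx1⟩
    refine lt_of_le_of_ne (hg0 x) fun h0 => ?_
    exact absurd (h x hx h0.symm) (not_lt.2 hx1))
  obtain ⟨B, hB⟩ := hK.bddBelow_image hf.continuousOn
  have hB' : ∀ x ∈ K, B ≤ f x := fun x hx => hB ⟨x, hx, rfl⟩
  refine ⟨(|B| + 1) / m, by positivity, fun x hx => ?_⟩
  by_cases h1 : f x ≤ 0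
  · have h2 := hm' x ⟨hx, h1⟩
    have h3 : |B| + 1 ≤ (|B| + 1) / m * g x := by
      have h4 : (|B| + 1) / m * m ≤ (|B| + 1) / m * g x :=
        mul_le_mul_of_nonneg_left h2 (by positivity)
      rwa [div_mul_cancel₀ _ hm.ne'] at h4
    have h5 := hB' x hx
    have h6 := neg_abs_le B
    linarith
  · push Not at h1
    have h2 : 0 ≤ (|B| + 1) / m * g x := mul_nonneg (by positivity) (hg0 x)
    linarith

/-- The points with normal `-e` are finitely many when they are nondegenerate. -/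
theorem inward_finite {F : V → ℝ} (hF : ContDiff ℝ ∞ F) (hb : Bornology.IsBounded {x | F x = 0})
    (hreg : ∀ x, F x = 0 → gradient F x ≠ 0) {e : V} (he : ‖e‖ = 1)
    (hidx : ∀ x, Inward F e x → ∃ k, Idx F e x k) : {x | Inward F e x}.Finite := by
  classical
  haveI : ProperSpace V := FiniteDimensional.proper ℝ V
  have hFc : Continuous F := hF.continuous
  have hgc : Continuous (gradient F) := by
    have h1 : Continuous (fderiv ℝ F) := hF.continuous_fderiv (by simp)
    exact (InnerProductSpace.toDual ℝ V).symm.continuous.comp h1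
  have hIn : ∀ x, Inward F e x ↔ F x = 0 ∧ gradient F x = -(‖gradient F x‖ • e) := by
    intro x
    constructor
    · rintro ⟨h0, l, hl, hg⟩
      refine ⟨h0, ?_⟩
      have hn : ‖gradient F x‖ = l := by
        rw [hg, norm_neg, norm_smul, he, mul_one, Real.norm_of_nonneg hl.le]
      rw [hn]
      exact hg
    · rintro ⟨h0, hg⟩
      exact ⟨h0, _, norm_pos_iff.2 (hreg x h0), hg⟩
  set T : Set V := {x | Inward F e x} with hT
  have hTcl : IsClosed T := by
    have h1 : T = {x | F x = 0} ∩ {x | gradient F x = -(‖gradient F x‖ • e)} := by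
      ext x
      exact hIn x
    rw [h1]
    exact (isClosed_eq hFc continuous_const).inter
      (isClosed_eq hgc (hgc.norm.smul continuous_const).neg)
  have hTc : IsCompact T :=
    Metric.isCompact_of_isClosed_isBounded hTcl (hb.subset fun x hx => hx.1)
  have hloc : ∀ x : V, ∃ U : Set V, x ∈ T → (U ∈ nhds x ∧ ∀ y ∈ T, y ∈ U → y = x) := by
    intro x
    by_cases hx : x ∈ T
    · obtain ⟨k, hk⟩ := hidx x hx
      obtain ⟨ρ, hρ, h⟩ := ix_isol F hF e he x hx k hk
      exact ⟨ball x ρ, fun _ => ⟨ball_mem_nhds x hρ, fun y hy hyU => h y hyU hy⟩⟩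
    · exact ⟨∅, fun h => absurd h hx⟩
  choose U hU using hloc
  obtain ⟨t, htT, ht⟩ := hTc.elim_nhds_subcover U (fun x hx => (hU x hx).1)
  refine t.finite_toSet.subset ?_
  intro x hx
  obtain ⟨y, hy, hxy⟩ := Set.mem_iUnion₂.1 (ht hx)
  rw [(hU y (htT y hy)).2 x hx hxy]
  exact Finset.mem_coe.2 hy

omit [InnerProductSpace ℝ V] [FiniteDimensional ℝ V] in
/-- No change of sign along a segment without zeros. -/
theorem neg_of_segment [NormedSpace ℝ V] {F : V → ℝ} (hF : Continuous F) {x w : V}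
    (hx : F x ≤ 0) (hw : ∀ t ∈ Icc (0 : ℝ) 1, F (x + t • w) ≠ 0) : F (x + w) ≤ 0 := by
  by_contra hcon
  push Not at hcon
  have hc : ContinuousOn (fun t : ℝ => F (x + t • w)) (Icc 0 1) :=
    (hF.comp (by fun_prop)).continuousOn
  have h1 : (0 : ℝ) ∈ Icc (F (x + (0 : ℝ) • w)) (F (x + (1 : ℝ) • w)) := by
    rw [zero_smul, add_zero, one_smul]
    exact ⟨hx, hcon.le⟩
  obtain ⟨t, ht, ht0⟩ := intermediate_value_Icc zero_le_one hc h1
  exact hw t ht ht0

/-- Pushing down near a level, away from the inward points. -/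
theorem ext_push {F : V → ℝ} (hF : ContDiff ℝ ∞ F) (hb : Bornology.IsBounded {x | F x = 0})
    (hreg : ∀ x, F x = 0 → gradient F x ≠ 0) {e : V} (he : ‖e‖ = 1) {t0 δ0 r : ℝ}
    (hδ0 : 0 < δ0) (hr : 0 < r) (P : Finset V)
    (hP : ∀ x, Inward F e x → |⟪e, x⟫ - t0| ≤ δ0 → ∃ p ∈ P, dist x p < r / 2) :
    ∃ δ : ℝ, 0 < δ ∧ ∀ s t : ℝ, t0 - δ < s → s ≤ t → t < t0 + δ → ∃ ρ : V → V, Continuous ρ ∧
      (∀ x, F x ≤ 0 → ⟪e, x⟫ ≤ t →
        (F (ρ x) ≤ 0 ∧ ⟪e, ρ x⟫ ≤ s) ∨ ∃ p ∈ P, dist (ρ x) p < r) ∧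
      (∀ x, ⟪e, x⟫ ≤ s → ρ x = x) ∧ ∀ x, min ⟪e, x⟫ s ≤ ⟪e, ρ x⟫ := by
  have hprop : ProperSpace V := FiniteDimensional.proper ℝ V
  have hz : Continuous fun x : V => ⟪e, x⟫ := continuous_const.inner continuous_id
  have hd1 : Continuous (fderiv ℝ F) := (hF.fderiv_right (m := ∞) (by simp)).continuous
  have hgr : Continuous (gradient F) := by
    unfold gradient
    exact (InnerProductSpace.toDual ℝ V).symm.continuous.comp hd1
  have hhor : Continuous (horG F e) := by
    unfold horG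
    exact hgr.sub ((hgr.inner continuous_const).smul continuous_const)
  obtain ⟨R, hR⟩ := hb.exists_norm_le
  obtain ⟨K, hKd⟩ : ∃ K : Set V, K = {x | F x ≤ 0 ∧ |⟪e, x⟫ - t0| ≤ δ0 ∧
    (∀ p ∈ P, r / 2 ≤ dist x p) ∧ ‖x‖ ≤ R + 2} := ⟨_, rfl⟩
  have hKc : IsCompact K := by
    refine Metric.isCompact_of_isClosed_isBounded ?_
      ((Metric.isBounded_closedBall (x := (0 : V)) (r := R + 2)).subset ?_)
    · rw [hKd]
      have : {x : V | ∀ p ∈ P, r / 2 ≤ dist x p} = ⋂ p ∈ P, {x | r / 2 ≤ dist x p} := by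
        ext x; simp
      have h2 : IsClosed {x : V | ∀ p ∈ P, r / 2 ≤ dist x p} := by
        rw [this]
        exact isClosed_biInter fun p _ =>
          isClosed_le continuous_const (continuous_id.dist continuous_const)
      exact (isClosed_le hF.continuous continuous_const).inter
        ((isClosed_le (hz.sub continuous_const).abs continuous_const).inter
          (h2.inter (isClosed_le continuous_norm continuous_const)))
    · rw [hKd]
      exact fun x hx => mem_closedBall_zero_iff.2 hx.2.2.2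
  have hK0c : IsCompact (K ∩ {x | F x = 0}) :=
    hKc.inter_right (isClosed_eq hF.continuous continuous_const)
  obtain ⟨l, hl, hl'⟩ := exists_combo hK0c (f := fun x => fderiv ℝ F x e)
    (g := fun x => ‖horG F e x‖ ^ 2) (hd1.clm_apply continuous_const) (hhor.norm.pow 2)
    (fun x => sq_nonneg _) (by
      rintro x ⟨hx, hx0⟩ hg
      have h1 : horG F e x = 0 := by
        have : ‖horG F e x‖ = 0 := by
          have hg' : ‖horG F e x‖ ^ 2 = 0 := hg
          exact pow_eq_zero_iff (two_ne_zero) |>.1 hg'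
        exact norm_eq_zero.1 this
      have h2 := (crit_iff he hreg x).1 ((crit_iff_horG he x).2 ⟨hx0, h1⟩)
      rw [hKd] at hx
      rcases h2 with h2 | h2
      · exfalso
        obtain ⟨p, hp, hxp⟩ := hP x h2 hx.2.1
        exact absurd hxp (not_lt.2 (hx.2.2.1 p hp))
      · obtain ⟨-, m, hm, hg2⟩ := h2
        show 0 < fderiv ℝ F x e
        rw [fderiv_eq_inner_gradient, hg2, smul_neg, neg_neg, real_inner_smul_left,
          real_inner_self_eq_norm_sq, he]
        linarith)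
  obtain ⟨φ, hφ⟩ : ∃ φ : V → ℝ, φ = fun x => max 0 (min 1 (R + 2 - ‖x‖)) := ⟨_, rfl⟩
  have hφc : Continuous φ := by
    rw [hφ]
    exact continuous_const.max (continuous_const.min (continuous_const.sub continuous_norm))
  have hφ1 : ∀ x, ‖x‖ ≤ R → φ x = 1 := by
    intro x hx
    rw [hφ]
    show max 0 (min 1 (R + 2 - ‖x‖)) = 1
    rw [min_eq_left (by linarith), max_eq_right zero_le_one]
  have hφ0 : ∀ x, R + 2 ≤ ‖x‖ → φ x = 0 := by
    intro x hx
    rw [hφ]
    show max 0 (min 1 (R + 2 - ‖x‖)) = 0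
    exact max_eq_left ((min_le_right _ _).trans (by linarith))
  obtain ⟨ξ, hξ⟩ : ∃ ξ : V → V, ξ = fun x => -e - (l * φ x) • horG F e x := ⟨_, rfl⟩
  have hξc : Continuous ξ := by
    rw [hξ]
    exact continuous_const.sub ((continuous_const.mul hφc).smul hhor)
  have hξe : ∀ x, ⟪e, ξ x⟫ = -1 := by
    intro x
    rw [hξ]
    show ⟪e, -e - (l * φ x) • horG F e x⟫ = -1
    rw [inner_sub_right, inner_neg_right, real_inner_self_eq_norm_sq, he,
      real_inner_smul_right, real_inner_comm, horG_orth he]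
    norm_num
  have hξd : ∀ x ∈ K, F x = 0 → fderiv ℝ F x (ξ x) < 0 := by
    intro x hx hx0
    have h1 := hl' x ⟨hx, hx0⟩
    rw [hξ]
    show fderiv ℝ F x (-e - (l * φ x) • horG F e x) < 0
    rw [hφ1 x (hR x hx0), mul_one, map_sub, map_neg, map_smul, horG_fderiv he, smul_eq_mul]
    linarith
  have hflow : ∀ᶠ τ in 𝓝 (0 : ℝ), ∀ x ∈ K, 0 ≤ τ → F x ≤ 0 → F (x + τ • ξ x) ≤ 0 := by
    apply hKc.eventually_forall_of_forall_eventually
    intro y hy
    have hy0 : F y ≤ 0 := by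
      rw [hKd] at hy
      exact hy.1
    rcases hy0.lt_or_eq with h1 | h1
    · have h3 : Continuous fun z : ℝ × V => F (z.2 + z.1 • ξ z.2) :=
        hF.continuous.comp (continuous_snd.add (continuous_fst.smul (hξc.comp continuous_snd)))
      have h4 : ∀ᶠ z : ℝ × V in 𝓝 ((0 : ℝ), y), F (z.2 + z.1 • ξ z.2) < 0 := by
        refine h3.continuousAt.eventually_lt continuousAt_const ?_
        show F (y + (0 : ℝ) • ξ y) < 0
        rw [zero_smul, add_zero]
        exact h1
      filter_upwards [h4] with z hz1 _ _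
      exact hz1.le
    · obtain ⟨c, hc, d, hd, hdesc⟩ := (desc1_smooth (hF.contDiffAt.of_le (by simp))
        (hξd y hy h1)).unif
      have e1 : ∀ᶠ z : ℝ × V in 𝓝 ((0 : ℝ), y), ‖z.2 - y‖ < d := by
        have h3 : Continuous fun z : ℝ × V => ‖z.2 - y‖ := by fun_prop
        refine h3.continuousAt.eventually_lt continuousAt_const ?_
        simpa using hd
      have e2 : ∀ᶠ z : ℝ × V in 𝓝 ((0 : ℝ), y), ‖ξ z.2 - ξ y‖ < d := by
        have h3 : Continuous fun z : ℝ × V => ‖ξ z.2 - ξ y‖ :=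
          ((hξc.comp continuous_snd).sub continuous_const).norm
        refine h3.continuousAt.eventually_lt continuousAt_const ?_
        simpa using hd
      have e3 : ∀ᶠ z : ℝ × V in 𝓝 ((0 : ℝ), y), z.1 < d := by
        refine continuous_fst.continuousAt.eventually_lt continuousAt_const ?_
        simpa using hd
      filter_upwards [e1, e2, e3] with z h3 h4 h5 h6 h7
      rcases h6.lt_or_eq with h8 | h8
      · have h9 := hdesc z.2 h3 (ξ z.2) h4 z.1 h8 h5
        have : 0 < c * z.1 := mul_pos hc h8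
        linarith
      · rw [← h8, zero_smul, add_zero]
        exact h7
  obtain ⟨τ0, hτ0, hτ⟩ := Metric.eventually_nhds_iff.1 hflow
  obtain ⟨B, hB⟩ := (isCompact_closedBall (0 : V) (R + 2)).exists_bound_of_continuousOn
    hξc.continuousOn
  have hB1 : 0 < |B| + 1 := by positivity
  have hBx : ∀ x, ‖ξ x‖ ≤ |B| + 1 := by
    intro x
    rcases le_total ‖x‖ (R + 2) with h | h
    · exact (hB x (mem_closedBall_zero_iff.2 h)).trans ((le_abs_self B).trans (by linarith))
    · rw [hξ]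
      show ‖-e - (l * φ x) • horG F e x‖ ≤ |B| + 1
      rw [hφ0 x h, mul_zero, zero_smul, sub_zero, norm_neg, he]
      linarith [abs_nonneg B]
  refine ⟨min (1 / 2) (min δ0 (min (τ0 / 2) (r / (4 * (|B| + 1))))), by positivity, ?_⟩
  intro s t hs hst ht
  set δ := min (1 / 2) (min δ0 (min (τ0 / 2) (r / (4 * (|B| + 1))))) with hδ
  have d0 : δ ≤ 1 / 2 := min_le_left _ _
  have d1 : δ ≤ δ0 := (min_le_right _ _).trans (min_le_left _ _)
  have d2 : δ ≤ τ0 / 2 :=
    ((min_le_right _ _).trans (min_le_right _ _)).trans (min_le_left _ _)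
  have d3 : δ ≤ r / (4 * (|B| + 1)) :=
    ((min_le_right _ _).trans (min_le_right _ _)).trans (min_le_right _ _)
  have d3' : 2 * δ * (|B| + 1) ≤ r / 2 := by
    have : δ * (|B| + 1) ≤ r / (4 * (|B| + 1)) * (|B| + 1) :=
      mul_le_mul_of_nonneg_right d3 hB1.le
    have h2 : r / (4 * (|B| + 1)) * (|B| + 1) = r / 4 := by field_simp
    rw [h2] at this
    linarith
  have hzρ : ∀ x, ⟪e, x + max (⟪e, x⟫ - s) 0 • ξ x⟫ = ⟪e, x⟫ - max (⟪e, x⟫ - s) 0 := by
    intro x
    rw [inner_add_right, real_inner_smul_right, hξe]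
    ring
  refine ⟨fun x => x + max (⟪e, x⟫ - s) 0 • ξ x, ?_, ?_, ?_, ?_⟩
  · exact continuous_id.add (((hz.sub continuous_const).max continuous_const).smul hξc)
  · intro x hx hxt
    by_cases h1 : ⟪e, x⟫ ≤ s
    · left
      have h2 : max (⟪e, x⟫ - s) 0 = 0 := max_eq_right (by linarith)
      simp only [h2, zero_smul, add_zero]
      exact ⟨hx, h1⟩
    · push Not at h1
      have h2 : max (⟪e, x⟫ - s) 0 = ⟪e, x⟫ - s := max_eq_left (by linarith)
      by_cases h3 : ∀ p ∈ P, r / 2 ≤ dist x p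
      · left
        refine ⟨?_, ?_⟩
        · simp only [h2]
          rcases le_or_gt ‖x‖ (R + 2) with h9 | h9
          · refine hτ (y := ⟪e, x⟫ - s) ?_ x ?_ (by linarith) hx
            · rw [dist_zero_right, Real.norm_eq_abs, abs_of_nonneg (by linarith)]
              linarith
            · rw [hKd]
              exact ⟨hx, abs_le.2 ⟨by linarith, by linarith⟩, h3, h9⟩
          · refine neg_of_segment hF.continuous hx fun t' ht' h10 => ?_
            have h11 := hR _ h10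
            have h12 : ‖t' • (⟪e, x⟫ - s) • ξ x‖ ≤ 1 := by
              have h13 : ‖ξ x‖ = 1 := by
                rw [hξ]
                show ‖-e - (l * φ x) • horG F e x‖ = 1
                rw [hφ0 x h9.le, mul_zero, zero_smul, sub_zero, norm_neg, he]
              rw [norm_smul, norm_smul, h13, mul_one, Real.norm_eq_abs, Real.norm_eq_abs,
                abs_of_nonneg ht'.1, abs_of_nonneg (by linarith)]
              nlinarith [ht'.1, ht'.2]
            have h14 := norm_sub_le (x + t' • (⟪e, x⟫ - s) • ξ x) (t' • (⟪e, x⟫ - s) • ξ x)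
            rw [add_sub_cancel_right] at h14
            linarith
        · have := hzρ x
          simp only at this ⊢
          rw [this, h2]
          linarith
      · right
        push Not at h3
        obtain ⟨p, hp, hxp⟩ := h3
        refine ⟨p, hp, ?_⟩
        have h4 : dist (x + max (⟪e, x⟫ - s) 0 • ξ x) x ≤ r / 2 := by
          rw [dist_eq_norm, add_sub_cancel_left, norm_smul, h2, Real.norm_eq_abs,
            abs_of_nonneg (by linarith)]
          have h5 : ‖ξ x‖ ≤ |B| + 1 := hBx x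
          calc (⟪e, x⟫ - s) * ‖ξ x‖ ≤ (2 * δ) * (|B| + 1) :=
                mul_le_mul (by linarith) h5 (norm_nonneg _) (by linarith)
            _ ≤ r / 2 := d3'
        calc dist (x + max (⟪e, x⟫ - s) 0 • ξ x) p
            ≤ dist (x + max (⟪e, x⟫ - s) 0 • ξ x) x + dist x p := dist_triangle _ _ _
          _ < r := by linarith
  · intro x hx
    have h2 : max (⟪e, x⟫ - s) 0 = 0 := max_eq_right (by linarith)
    simp only [h2, zero_smul, add_zero]
  · intro x
    have := hzρ x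
    simp only at this ⊢
    rw [this]
    rcases le_total ⟪e, x⟫ s with h1 | h1
    · rw [min_eq_left h1, max_eq_right (by linarith)]
      linarith
    · rw [min_eq_right h1, max_eq_left (by linarith)]
      linarith

/-- One step of the sweep. -/
theorem ext_step {F : V → ℝ} (hF : ContDiff ℝ ∞ F) (hb : Bornology.IsBounded {x | F x = 0})
    (hreg : ∀ x, F x = 0 → gradient F x ≠ 0) {e : V} (he : ‖e‖ = 1) {c t0 : ℝ}
    (hfin : {x | Inward F e x}.Finite)
    (h0 : ∀ x, Inward F e x → ⟪e, x⟫ = t0 → c < t0 ∧ ∃ k : ℕ, k ≠ 2 ∧ Idx F e x k) :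
    ∃ δ : ℝ, 0 < δ ∧ ∀ s t : ℝ, c ≤ s → t0 - δ < s → s ≤ t0 → s ≤ t → t < t0 + δ →
      ExtS (layS F e c c) (layS F e c s) → ExtS (layS F e c c) (layS F e c t) := by
  classical
  have hz : Continuous fun x : V => ⟪e, x⟫ := continuous_const.inner continuous_id
  obtain ⟨P, hPd⟩ : ∃ P : Finset V, P = hfin.toFinset.filter fun x => ⟪e, x⟫ = t0 := ⟨_, rfl⟩
  have hPm : ∀ x, x ∈ P ↔ Inward F e x ∧ ⟪e, x⟫ = t0 := by
    intro x
    rw [hPd, Finset.mem_filter, Set.Finite.mem_toFinset]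
    rfl
  -- a small radius
  obtain ⟨ε, hε, hεc, hεd⟩ : ∃ ε : ℝ, 0 < ε ∧ (∀ p ∈ P, ε ≤ t0 - c) ∧
      ∀ p ∈ P, ∀ q ∈ P, p ≠ q → 2 * ε ≤ dist p q := by
    have h1 : ∀ p ∈ P, 0 < t0 - c := fun p hp => by
      have := (h0 p ((hPm p).1 hp).1 ((hPm p).1 hp).2).1
      linarith
    have h2 : ∃ ε : ℝ, 0 < ε ∧ ∀ z ∈ (P ×ˢ P).filter (fun z => z.1 ≠ z.2), ε ≤ dist z.1 z.2 / 2 := by
      rcases ((P ×ˢ P).filter (fun z => z.1 ≠ z.2)).eq_empty_or_nonempty with h3 | h3
      · exact ⟨1, one_pos, fun z hz1 => by rw [h3] at hz1; exact absurd hz1 (Finset.notMem_empty z)⟩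
      · refine ⟨((P ×ˢ P).filter (fun z => z.1 ≠ z.2)).inf' h3 fun z => dist z.1 z.2 / 2, ?_, ?_⟩
        · rw [Finset.lt_inf'_iff]
          intro z hz1
          have := dist_pos.2 (Finset.mem_filter.1 hz1).2
          linarith
        · intro z hz1
          exact Finset.inf'_le _ hz1
    obtain ⟨ε, hε, hε'⟩ := h2
    rcases P.eq_empty_or_nonempty with h3 | ⟨p0, hp0⟩
    · refine ⟨ε, hε, fun p hp => ?_, fun p hp => ?_⟩ <;>
      · rw [h3] at hp
        exact absurd hp (Finset.notMem_empty p)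
    · refine ⟨min ε (t0 - c), lt_min hε (h1 p0 hp0), fun p _ => min_le_right _ _,
        fun p hp q hq hpq => ?_⟩
      have h4 := hε' (p, q) (Finset.mem_filter.2 ⟨Finset.mk_mem_product hp hq, hpq⟩)
      have h5 := min_le_left ε (t0 - c)
      simp only at h4
      linarith
  have hbox : ∀ p ∈ P, ∃ U L : Set V, IsOpen U ∧ p ∈ U ∧ U ⊆ L ∧ IsClosed L ∧ L ⊆ ball p ε ∧
      ∃ η₀ : ℝ, 0 < η₀ ∧ ∀ η : ℝ, 0 ≤ η → η < η₀ →
        LiftS {x | x ∈ L ∧ x ∉ U ∧ F x ≤ 0 ∧ ⟪x, e⟫ ≤ ⟪p, e⟫ - η} := by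
    intro p hp
    obtain ⟨h1, h2⟩ := (hPm p).1 hp
    obtain ⟨-, k, hk, hi⟩ := h0 p h1 h2
    exact ext_box F hF e he p h1 k hk hi ε hε
  choose! U L hUo hpU hUL hLc hLb η₀ hη₀ hlift using hbox
  -- common constants
  obtain ⟨η, hη, hη'⟩ : ∃ η : ℝ, 0 < η ∧ ∀ p ∈ P, η ≤ η₀ p := by
    rcases P.eq_empty_or_nonempty with h3 | h3
    · exact ⟨1, one_pos, fun p hp => by rw [h3] at hp; exact absurd hp (Finset.notMem_empty p)⟩
    · exact ⟨P.inf' h3 η₀, (Finset.lt_inf'_iff _).2 fun p hp => hη₀ p hp,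
        fun p hp => Finset.inf'_le _ hp⟩
  obtain ⟨r, hr, hr'⟩ : ∃ r : ℝ, 0 < r ∧ ∀ p ∈ P, ball p r ⊆ U p := by
    have h1 : ∀ p ∈ P, ∃ r : ℝ, 0 < r ∧ ball p r ⊆ U p := fun p hp =>
      Metric.isOpen_iff.1 (hUo p hp) p (hpU p hp)
    choose! rr hrr hrr' using h1
    rcases P.eq_empty_or_nonempty with h3 | h3
    · exact ⟨1, one_pos, fun p hp => by rw [h3] at hp; exact absurd hp (Finset.notMem_empty p)⟩
    · exact ⟨P.inf' h3 rr, (Finset.lt_inf'_iff _).2 fun p hp => hrr p hp,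
        fun p hp => (ball_subset_ball (Finset.inf'_le _ hp)).trans (hrr' p hp)⟩
  obtain ⟨δ0, hδ0, hδ0'⟩ : ∃ δ0 : ℝ, 0 < δ0 ∧ ∀ x, Inward F e x → |⟪e, x⟫ - t0| ≤ δ0 → x ∈ P := by
    have h1 : ∃ ε : ℝ, 0 < ε ∧ ∀ z ∈ hfin.toFinset.filter (fun x => ⟪e, x⟫ ≠ t0),
        ε ≤ |⟪e, z⟫ - t0| / 2 := by
      rcases (hfin.toFinset.filter (fun x => ⟪e, x⟫ ≠ t0)).eq_empty_or_nonempty with h3 | h3
      · exact ⟨1, one_pos, fun z hz1 => by rw [h3] at hz1; exact absurd hz1 (Finset.notMem_empty z)⟩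
      · refine ⟨(hfin.toFinset.filter (fun x => ⟪e, x⟫ ≠ t0)).inf' h3
          fun z => |⟪e, z⟫ - t0| / 2, ?_, ?_⟩
        · rw [Finset.lt_inf'_iff]
          intro z hz1
          have := abs_pos.2 (sub_ne_zero.2 (Finset.mem_filter.1 hz1).2)
          linarith
        · intro z hz1
          exact Finset.inf'_le _ hz1
    obtain ⟨ε1, hε1, h2⟩ := h1
    refine ⟨ε1, hε1, fun x hx hxt => ?_⟩
    rw [hPm]
    refine ⟨hx, ?_⟩
    by_contra h3
    have h4 := h2 x (Finset.mem_filter.2 ⟨(Set.Finite.mem_toFinset _).2 hx, h3⟩)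
    have h5 := abs_pos.2 (sub_ne_zero.2 h3)
    linarith
  obtain ⟨δ1, hδ1, hpush⟩ := ext_push hF hb hreg he (t0 := t0) hδ0 hr P fun x hx hxt =>
    ⟨x, hδ0' x hx hxt, by rw [dist_self]; linarith⟩
  refine ⟨min δ1 η, lt_min hδ1 hη, fun s t hcs hs hst0 hst ht hE => ?_⟩
  have m1 := min_le_left δ1 η
  have m2 := min_le_right δ1 η
  obtain ⟨ρ, hρc, hρ1, hρ2, hρ3⟩ := hpush s t (by linarith) hst (by linarith)
  have hLz : ∀ p ∈ P, ∀ x ∈ L p, c < ⟪e, x⟫ := by
    intro p hp x hx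
    have h1 := hLb p hp hx
    rw [mem_ball, dist_eq_norm] at h1
    have h2 : |⟪e, x - p⟫| ≤ ‖x - p‖ := by
      have := abs_real_inner_le_norm e (x - p)
      rwa [he, one_mul] at this
    rw [inner_sub_right, ((hPm p).1 hp).2] at h2
    have h3 := hεc p hp
    have h4 := (abs_le.1 h2).1
    linarith
  have hLd : ∀ p ∈ P, ∀ q ∈ P, p ≠ q → Disjoint (L p) (L q) := by
    intro p hp q hq hpq
    rw [Set.disjoint_left]
    intro x hx hx'
    have h1 := hLb p hp hx
    have h2 := hLb q hq hx'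
    rw [mem_ball] at h1 h2
    have h3 := hεd p hp q hq hpq
    have h4 := dist_triangle_left p q x
    linarith
  obtain ⟨Z, hZ⟩ : ∃ Z : Set V, Z = layS F e c s ∩ (⋂ p ∈ P, (U p)ᶜ) := ⟨_, rfl⟩
  have hZc : IsClosed Z := by
    rw [hZ]
    refine (layS_closed hF.continuous e c s).inter (isClosed_biInter fun p hp => ?_)
    exact (hUo p hp).isClosed_compl
  have hZs : Z ⊆ layS F e c s := by
    rw [hZ]
    exact inter_subset_left
  have hAZ : layS F e c c ⊆ Z := by
    intro x hx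
    rw [hZ]
    refine ⟨layS_mono hcs hx, mem_iInter₂.2 fun p hp hxU => ?_⟩
    have := hLz p hp x (hUL p hp hxU)
    linarith [hx.2.2]
  have hZl : ∀ p ∈ P, LiftS (Z ∩ L p) := by
    intro p hp
    have h1 := hlift p hp (t0 - s) (by linarith) (by linarith [hη' p hp])
    have h2 : Z ∩ L p = {x | x ∈ L p ∧ x ∉ U p ∧ F x ≤ 0 ∧ ⟪x, e⟫ ≤ ⟪p, e⟫ - (t0 - s)} := by
      have hpe : ⟪p, e⟫ = t0 := by rw [real_inner_comm]; exact ((hPm p).1 hp).2
      ext x
      rw [hZ]
      constructor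
      · rintro ⟨⟨hx, hxU⟩, hxL⟩
        refine ⟨hxL, (mem_iInter₂.1 hxU) p hp, hx.1, ?_⟩
        rw [hpe, real_inner_comm]
        linarith [hx.2.2]
      · rintro ⟨hxL, hxU, hxF, hxz⟩
        rw [hpe, real_inner_comm] at hxz
        refine ⟨⟨⟨hxF, (hLz p hp x hxL).le, by linarith⟩, mem_iInter₂.2 fun q hq hxq => ?_⟩, hxL⟩
        by_cases hpq : p = q
        · rw [← hpq] at hxq
          exact hxU hxq
        · exact Set.disjoint_left.1 (hLd p hp q hq hpq) hxL (hUL q hq hxq)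
    rw [h2]
    exact h1
  have hE1 : ExtS (layS F e c c) (Z ∪ ⋃ p ∈ P, L p) :=
    (hE.mono hZs).trans (ExtS.boxes hZc L P hLc hLd hZl) hAZ
  refine hE1.of_map (ρ := ρ) hρc.continuousOn ?_ ?_
  · intro x hx
    rcases hρ1 x hx.1 hx.2.2 with h1 | ⟨p, hp, h1⟩
    · have h2 : ρ x ∈ layS F e c s := by
        refine ⟨h1.1, ?_, h1.2⟩
        exact (le_min hx.2.1 hcs).trans (hρ3 x)
      by_cases h3 : ∀ p ∈ P, ρ x ∉ U p
      · left
        rw [hZ]
        exact ⟨h2, mem_iInter₂.2 h3⟩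
      · push Not at h3
        obtain ⟨p, hp, h4⟩ := h3
        right
        exact mem_iUnion₂.2 ⟨p, hp, hUL p hp h4⟩
    · right
      exact mem_iUnion₂.2 ⟨p, hp, hUL p hp (hr' p hp (mem_ball.2 h1))⟩
  · intro x hx
    exact hρ2 x (hx.2.2.trans hcs)

/-- Every map of a regular slice to the circle extends to the part above, when the points with
normal `-e` there have index different from two. -/
theorem ext_above {F : V → ℝ} (hF : ContDiff ℝ ∞ F) (hb : Bornology.IsBounded {x | F x = 0})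
    (hreg : ∀ x, F x = 0 → gradient F x ≠ 0) {e : V} (he : ‖e‖ = 1) {c : ℝ}
    (hfin : {x | Inward F e x}.Finite) (hc : ∀ x, Inward F e x → ⟪e, x⟫ ≠ c)
    (h0 : ∀ x, Inward F e x → c < ⟪e, x⟫ → ∃ k : ℕ, k ≠ 2 ∧ Idx F e x k) :
    ExtS (layS F e c c) {x | F x ≤ 0 ∧ c ≤ ⟪e, x⟫} := by
  have key : ∀ T : ℝ, ExtS (layS F e c c) (layS F e c T) := by
    intro T
    by_contra hT
    obtain ⟨S, hS⟩ : ∃ S : Set ℝ, S = {t | c ≤ t ∧ ExtS (layS F e c c) (layS F e c t)} := ⟨_, rfl⟩
    have hcS : c ∈ S := by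
      rw [hS]
      exact ⟨le_rfl, ExtS.refl _⟩
    have hbd : BddAbove S := by
      refine ⟨T, fun t ht => ?_⟩
      rw [hS] at ht
      by_contra h
      push Not at h
      exact hT (ht.2.mono (layS_mono h.le))
    have hct : c ≤ sSup S := le_csSup hbd hcS
    obtain ⟨δ, hδ, hstep⟩ := ext_step hF hb hreg he (c := c) (t0 := sSup S) hfin
      fun x hx hxt => by
        have h1 := hc x hx
        have h2 : c < sSup S := lt_of_le_of_ne hct fun h => h1 (hxt.trans h.symm)
        exact ⟨h2, h0 x hx (by rw [hxt]; exact h2)⟩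
    obtain ⟨s, hs, hsl⟩ := exists_lt_of_lt_csSup ⟨c, hcS⟩ (show sSup S - δ < sSup S by linarith)
    have hsle := le_csSup hbd hs
    rw [hS] at hs
    have h3 := hstep s (sSup S + δ / 2) hs.1 hsl hsle (by linarith) (by linarith) hs.2
    have h4 : sSup S + δ / 2 ∈ S := (Set.ext_iff.1 hS _).2 ⟨by linarith, h3⟩
    have h5 := le_csSup hbd h4
    linarith
  obtain ⟨R, hR⟩ := hb.exists_norm_le
  have hz : Continuous fun x : V => ⟪e, x⟫ := continuous_const.inner continuous_id
  obtain ⟨T, hTR, hTc⟩ : ∃ T : ℝ, R < T ∧ c ≤ T := ⟨max (R + 1) c, by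
    linarith [le_max_left (R + 1) c], le_max_right _ _⟩
  have hze : ∀ (x : V) (t : ℝ), ⟪e, x + t • e⟫ = ⟪e, x⟫ + t := by
    intro x t
    rw [inner_add_right, real_inner_smul_right, real_inner_self_eq_norm_sq, he]
    ring
  refine (key T).of_map (ρ := fun x => x + (-(max (⟪e, x⟫ - T) 0)) • e) ?_ ?_ ?_
  · exact (continuous_id.add
      (((hz.sub continuous_const).max continuous_const).neg.smul continuous_const)).continuousOn
  · rintro x ⟨hx, hxc⟩
    rcases le_or_gt ⟪e, x⟫ T with h1 | h1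
    · have h2 : max (⟪e, x⟫ - T) 0 = 0 := max_eq_right (by linarith)
      simp only [h2, neg_zero, zero_smul, add_zero]
      exact ⟨hx, hxc, h1⟩
    · have h2 : max (⟪e, x⟫ - T) 0 = ⟪e, x⟫ - T := max_eq_left (by linarith)
      simp only [h2]
      refine ⟨?_, ?_, ?_⟩
      · refine neg_of_segment hF.continuous hx fun t ht h3 => ?_
        have h4 := hR _ h3
        have h5 : ⟪e, x + t • (-(⟪e, x⟫ - T)) • e⟫ ≤ ‖e‖ * ‖x + t • (-(⟪e, x⟫ - T)) • e‖ :=
          real_inner_le_norm _ _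
        rw [he, one_mul, smul_smul, hze] at h5
        rw [smul_smul] at h4
        nlinarith [ht.1, ht.2]
      · rw [hze]
        linarith
      · rw [hze]
        linarith
  · intro x hx
    have h2 : max (⟪e, x⟫ - T) 0 = 0 := max_eq_right (by linarith [hx.2.2])
    simp only [h2, neg_zero, zero_smul, add_zero]

/-- A regular slice of a domain with the lifting property has the lifting property, when above it no
point with normal `-e` and below it no point with normal `e` has index two. -/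
theorem slice_liftS_z {F : V → ℝ} (hF : ContDiff ℝ ∞ F) (hb : Bornology.IsBounded {x | F x = 0})
    (hreg : ∀ x, F x = 0 → gradient F x ≠ 0) {e : V} (he : ‖e‖ = 1) {c : ℝ}
    (hc : ∀ x, Crit F e x → ⟪e, x⟫ ≠ c) (hfin : {x | Crit F e x}.Finite)
    (above : ∀ x, Inward F e x → c < ⟪e, x⟫ → ∃ k : ℕ, k ≠ 2 ∧ Idx F e x k)
    (below : ∀ x, Inward F (-e) x → ⟪e, x⟫ < c → ∃ k : ℕ, k ≠ 2 ∧ Idx F (-e) x k)
    (hW : LiftS {x | F x ≤ 0}) : LiftS {y | slc F e c y ≤ 0} := by
  have hcr : ∀ x, Crit F e x ↔ Inward F e x ∨ Inward F (-e) x := crit_iff he hreg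
  have he' : ‖-e‖ = 1 := by rw [norm_neg, he]
  have h1 := ext_above hF hb hreg he (hfin.subset fun x hx => (hcr x).2 (Or.inl hx))
    (fun x hx => hc x ((hcr x).2 (Or.inl hx))) above
  have h2 := ext_above hF hb hreg he' (c := -c)
    (hfin.subset fun x hx => (hcr x).2 (Or.inr hx))
    (fun x hx h => hc x ((hcr x).2 (Or.inr hx)) (by rw [inner_neg_left] at h; linarith))
    (fun x hx h => below x hx (by rw [inner_neg_left] at h; linarith))
  have e1 : layS F (-e) (-c) (-c) = layS F e c c := by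
    ext x
    unfold layS
    simp only [Set.mem_ofPred_eq, inner_neg_left]
    constructor
    · rintro ⟨h, h', h''⟩
      exact ⟨h, by linarith, by linarith⟩
    · rintro ⟨h, h', h''⟩
      exact ⟨h, by linarith, by linarith⟩
  rw [e1] at h2
  have hz : Continuous fun x : V => ⟪e, x⟫ := continuous_const.inner continuous_id
  have hz' : Continuous fun x : V => ⟪-e, x⟫ := continuous_const.inner continuous_id
  have h3 : ExtS (layS F e c c) {x | F x ≤ 0} := by
    refine (ExtS.glue ((isClosed_le hF.continuous continuous_const).inter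
      (isClosed_le continuous_const hz)) ((isClosed_le hF.continuous continuous_const).inter
      (isClosed_le continuous_const hz')) h1 h2 ?_).mono ?_
    · rintro x ⟨⟨ha, hb1⟩, -, hb2⟩
      refine ⟨ha, hb1, ?_⟩
      have : -c ≤ ⟪-e, x⟫ := hb2
      rw [inner_neg_left] at this
      linarith
    · intro x hx
      rcases le_total c ⟪e, x⟫ with h | h
      · exact Or.inl ⟨hx, h⟩
      · refine Or.inr ⟨hx, ?_⟩
        show -c ≤ ⟪-e, x⟫
        rw [inner_neg_left]
        linarith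
  have h4 : LiftS (layS F e c c) := h3.liftS (fun x hx => hx.1) hW
  refine h4.of_maps (φ := hpr e) (ψ := fun y : (ℝ ∙ e)ᗮ => (y : V) + c • e) ?_ ?_ ?_ ?_ ?_
  · exact (hprL e).continuous.continuousOn
  · exact Continuous.continuousOn (by fun_prop)
  · intro x hx
    show slc F e c (hpr e x) ≤ 0
    rw [hpr_slc he (le_antisymm hx.2.2 hx.2.1)]
    exact hx.1
  · intro y hy
    exact ⟨hy, (inner_hpr he y c).ge, (inner_hpr he y c).le⟩
  · intro y _
    exact hpr_coe he y c

/-- The form for a bounded domain. -/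
theorem slice_liftS {F : V → ℝ} (hF : ContDiff ℝ ∞ F) (hb : Bornology.IsBounded {x | F x ≤ 0})
    (hreg : ∀ x, F x = 0 → gradient F x ≠ 0) {e : V} (he : ‖e‖ = 1) {c : ℝ}
    (hc : ∀ x, Crit F e x → ⟪e, x⟫ ≠ c) (hfin : {x | Crit F e x}.Finite)
    (above : ∀ x, Inward F e x → c < ⟪e, x⟫ → ∃ k : ℕ, k ≠ 2 ∧ Idx F e x k)
    (below : ∀ x, Inward F (-e) x → ⟪e, x⟫ < c → ∃ k : ℕ, k ≠ 2 ∧ Idx F (-e) x k)
    (hW : LiftS {x | F x ≤ 0}) : LiftS {y | slc F e c y ≤ 0} :=
  slice_liftS_z hF (hb.subset fun x (hx : F x = 0) => hx.le) hreg he hc hfin above below hW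

/-- The form for nondegenerate directions; the domain may be unbounded. -/
theorem slice_liftS_nd {F : V → ℝ} (hF : ContDiff ℝ ∞ F) (hb : Bornology.IsBounded {x | F x = 0})
    (hreg : ∀ x, F x = 0 → gradient F x ≠ 0) {e : V} (he : ‖e‖ = 1) {c : ℝ}
    (hc : ∀ x, Crit F e x → ⟪e, x⟫ ≠ c) (hnd : ∀ x, Crit F e x → ∃ k, Idx F e x k)
    (hup : ∀ x, Inward F e x → c < ⟪e, x⟫ → ¬ Idx F e x 2)
    (hdn : ∀ x, Inward F (-e) x → ⟪e, x⟫ < c → ¬ Idx F e x 2)
    (hl : LiftS {x | F x ≤ 0}) : LiftS {y | slc F e c y ≤ 0} := by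
  have he' : ‖-e‖ = 1 := by rw [norm_neg, he]
  have hcr : ∀ x, Crit F e x ↔ Inward F e x ∨ Inward F (-e) x := crit_iff he hreg
  have hfin : {x | Crit F e x}.Finite := by
    refine ((inward_finite hF hb hreg he fun x hx => hnd x ((hcr x).2 (Or.inl hx))).union
      (inward_finite hF hb hreg he' fun x hx => ?_)).subset fun x hx => (hcr x).1 hx
    obtain ⟨k, hk⟩ := hnd x ((hcr x).2 (Or.inr hx))
    exact ⟨k, idx_neg_dir.2 hk⟩
  refine slice_liftS_z hF hb hreg he hc hfin (fun x hx hxc => ?_) (fun x hx hxc => ?_) hl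
  · obtain ⟨k, hk⟩ := hnd x ((hcr x).2 (Or.inl hx))
    refine ⟨k, ?_, hk⟩
    rintro rfl
    exact hup x hx hxc hk
  · obtain ⟨k, hk⟩ := hnd x ((hcr x).2 (Or.inr hx))
    refine ⟨k, ?_, idx_neg_dir.2 hk⟩
    rintro rfl
    exact hdn x hx hxc hk

end Pool.Schoen
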