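import Pool.Agent.H.MP_6c077c_gt.IxB.Ring
import Pool.Agent.H.MP_6c077c_gt.helper58.ExtS

/-! Extension of maps to the circle: a box around a point with normal `-e` of index not two. -/

set_option autoImplicit false

namespace Pool.Schoen

open scoped ContDiff RealInnerProductSpace
open Metric Set

variable {V : Type*} [NormedAddCommGroup V] [InnerProductSpace ℝ V] [FiniteDimensional ℝ V]

/-- Near a point `p` with normal `-e` and index not two: an open box `U` around `p` with closed box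
`L` such that the part of the domain in `L`, outside `U` and below the level of `p` by any small
amount is a thickened sphere of dimension not one. -/
theorem ext_box (F : V → ℝ) (hF : ContDiff ℝ ∞ F) (e : V) (he : ‖e‖ = 1) (p : V)
    (hp : Inward F e p) (k : ℕ) (hk : k ≠ 2) (hd : Idx F e p k) (ε : ℝ) (hε : 0 < ε) :
    ∃ U L : Set V, IsOpen U ∧ p ∈ U ∧ U ⊆ L ∧ IsClosed L ∧ L ⊆ ball p ε ∧
      ∃ η₀ : ℝ, 0 < η₀ ∧ ∀ η : ℝ, 0 ≤ η → η < η₀ →
        LiftS {x | x ∈ L ∧ x ∉ U ∧ F x ≤ 0 ∧ ⟪x, e⟫ ≤ ⟪p, e⟫ - η} := by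
  obtain ⟨N, P, hS, hfin⟩ := hd
  obtain ⟨ρ₀, hρ₀, hρ⟩ := ix_uniform F hF e he p hp N P hS
  obtain ⟨ρ, hρ0, hρ1, hρ3⟩ : ∃ ρ : ℝ, 0 < ρ ∧ 4 * ρ ≤ ρ₀ ∧ 4 * ρ ≤ ε :=
    ⟨min ρ₀ ε / 4, by positivity, by linarith [min_le_left ρ₀ ε], by
      linarith [min_le_right ρ₀ ε]⟩
  -- coordinates
  obtain ⟨ca, hca⟩ : ∃ ca : V → V, ca = fun x => N.starProjection (Ring_w p e x) := ⟨_, rfl⟩
  obtain ⟨cb, hcb⟩ : ∃ cb : V → V, cb = fun x => Ring_w p e x - N.starProjection (Ring_w p e x) :=
    ⟨_, rfl⟩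
  have hmem : ∀ x, ca x ∈ N ∧ cb x ∈ P := by
    intro x
    rw [hca, hcb]
    exact hS.proj _ (Ring_orth he p x)
  have hxe : ∀ x, p + (ca x + cb x) + Ring_t p e x • e = x := by
    intro x
    rw [hca, hcb]
    show p + (N.starProjection (Ring_w p e x) +
      (Ring_w p e x - N.starProjection (Ring_w p e x))) + Ring_t p e x • e = x
    rw [add_sub_cancel]
    exact Ring_eq p e x
  have hmk : ∀ a ∈ N, ∀ b ∈ P, ∀ t : ℝ, Ring_t p e (p + (a + b) + t • e) = t ∧
      ca (p + (a + b) + t • e) = a ∧ cb (p + (a + b) + t • e) = b := by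
    intro a ha b hb t
    obtain ⟨h1, h2, h3⟩ := IxRing_mk he hS ha hb t
    refine ⟨h1, by rw [hca]; exact h3, ?_⟩
    rw [hcb]
    show Ring_w p e (p + (a + b) + t • e) - N.starProjection (Ring_w p e (p + (a + b) + t • e)) = b
    rw [h3, h2, add_sub_cancel_left]
  have hct := Ring_cont_t p e
  have hcac : Continuous ca := by
    rw [hca]
    exact N.starProjection.continuous.comp (Ring_cont_w p e)
  have hcbc : Continuous cb := by
    rw [hcb]
    exact (Ring_cont_w p e).sub (N.starProjection.continuous.comp (Ring_cont_w p e))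
  have hdist : ∀ x, dist x p ≤ ‖ca x‖ + ‖cb x‖ + |Ring_t p e x| := by
    intro x
    have h1 := Ring_dist he p x
    have h2 : Ring_w p e x = ca x + cb x := by
      rw [hca, hcb]
      exact (add_sub_cancel _ _).symm
    have h3 := norm_add_le (ca x) (cb x)
    rw [← h2] at h3
    linarith
  have hball : ∀ (a b : V) (t : ℝ), ‖a‖ ≤ ρ → ‖b‖ ≤ ρ → |t| ≤ ρ →
      p + (a + b) + t • e ∈ closedBall p ρ₀ := by
    intro a b t ha hb ht
    rw [mem_closedBall, dist_eq_norm]
    have e1 : p + (a + b) + t • e - p = a + b + t • e := by abel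
    rw [e1]
    refine (norm_add₃_le).trans ?_
    rw [norm_smul, he, mul_one, Real.norm_eq_abs]
    linarith
  have hvert : ∀ (a b : V) (t t' : ℝ), ‖a‖ ≤ ρ → ‖b‖ ≤ ρ → -ρ ≤ t → t < t' → t' ≤ ρ →
      F (p + (a + b) + t' • e) < F (p + (a + b) + t • e) := by
    intro a b t t' ha hb h1 h2 h3
    have h4 := cg_vertical F hF (p + (a + b) + t' • e) e (t - t') (by linarith) (fun r hr => by
      have e1 : p + (a + b) + t' • e + r • e = p + (a + b) + (t' + r) • e := by
        rw [add_smul]; abel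
      rw [e1]
      exact (hρ _ (hball a b _ ha hb (abs_le.2 ⟨by linarith [hr.1], by linarith [hr.2]⟩))).1)
    have e1 : p + (a + b) + t' • e + (t - t') • e = p + (a + b) + t • e := by
      rw [sub_smul]; abel
    rwa [e1] at h4
  have hF0 : F (p + (0 + 0) + (0 : ℝ) • e) = 0 := by
    rw [zero_smul, add_zero, add_zero, add_zero]; exact hp.1
  have hcont : Continuous F := hF.continuous
  have hN0 : (0 : V) ∈ N := N.zero_mem
  have hP0 : (0 : V) ∈ P := P.zero_mem
  have hnorm0 : ‖(0 : V)‖ ≤ ρ := by rw [norm_zero]; exact hρ0.le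
  have habs0 : |(0 : ℝ)| ≤ ρ := by rw [abs_zero]; exact hρ0.le
  -- positive on `P`
  have hPb : ∀ b ∈ P, b ≠ 0 → ‖b‖ ≤ ρ → 0 < F (p + (0 + b) + (0 : ℝ) • e) := by
    intro b hb hb0 hbρ
    have h1 := cg_segment F hF p b 1 (Ring_fd hp (hS.hP b hb)) (fun t ht => by
      have hm := hball 0 (t • b) 0 hnorm0 (by
        rw [norm_smul, Real.norm_eq_abs, abs_of_nonneg ht.1]
        nlinarith [norm_nonneg b, ht.2]) habs0
      rw [zero_smul, add_zero, zero_add] at hm
      rw [one_mul]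
      exact (hρ _ hm).2.2 b hb hb0)
    rw [hp.1, one_mul, one_mul] at h1
    rw [zero_smul, add_zero, zero_add]
    exact h1
  have hPb' : ∀ b ∈ P, ‖b‖ ≤ ρ → 0 ≤ F (p + (0 + b) + (0 : ℝ) • e) := by
    intro b hb hbρ
    by_cases hb0 : b = 0
    · rw [hb0, hF0]
    · exact (hPb b hb hb0 hbρ).le
  -- negative on `N`
  have hNa : ∀ a ∈ N, a ≠ 0 → ‖a‖ ≤ ρ → F (p + a) < 0 := by
    intro a ha ha0 haρ
    have h1 := cg_segment F hF p a (-1) (Ring_fd hp (hS.hN a ha)) (fun t ht => by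
      have hm := hball (t • a) 0 0 (by
        rw [norm_smul, Real.norm_eq_abs, abs_of_nonneg ht.1]
        nlinarith [norm_nonneg a, ht.2]) hnorm0 habs0
      rw [zero_smul, add_zero, add_zero] at hm
      have := (hρ _ hm).2.1 a ha ha0
      linarith)
    rw [hp.1] at h1
    linarith
  have habs : ∀ x : V, -ρ ≤ Ring_t p e x → Ring_t p e x ≤ 0 → |Ring_t p e x| ≤ ρ := fun x h1 h2 =>
    abs_le.2 ⟨h1, by linarith⟩
  -- the compact set on which `F` is positive
  obtain ⟨r₁, hr₁, hr₁'⟩ : ∃ r₁ > 0, ∀ a ∈ N, ∀ b ∈ P, ∀ t : ℝ, ‖a‖ < r₁ → ‖b‖ ≤ ρ → -ρ ≤ t →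
      t ≤ 0 → (‖b‖ = ρ ∨ t = -ρ) → 0 < F (p + (a + b) + t • e) := by
    obtain ⟨K, hK⟩ : ∃ K : Set V, K = {x | ca x = 0 ∧ ‖cb x‖ ≤ ρ ∧ -ρ ≤ Ring_t p e x ∧
        Ring_t p e x ≤ 0 ∧ (‖cb x‖ = ρ ∨ Ring_t p e x = -ρ)} := ⟨_, rfl⟩
    have hKc : IsCompact K := by
      refine Metric.isCompact_of_isClosed_isBounded ?_ ?_
      · rw [hK]
        exact (isClosed_eq hcac continuous_const).inter
          ((isClosed_le hcbc.norm continuous_const).inter
          ((isClosed_le continuous_const hct).inter ((isClosed_le hct continuous_const).inter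
          ((isClosed_eq hcbc.norm continuous_const).union (isClosed_eq hct continuous_const)))))
      · refine (Metric.isBounded_closedBall (x := p) (r := ρ₀)).subset ?_
        intro x hx
        rw [hK] at hx
        obtain ⟨h1, h2, h3, h4, _⟩ := hx
        rw [mem_closedBall]
        have h5 := hdist x
        have h6 := habs x h3 h4
        rw [h1, norm_zero] at h5
        linarith
    have hKpos : K ⊆ {x | 0 < F x} := by
      intro x hx
      rw [hK] at hx
      obtain ⟨h1, h2, h3, h4, h5⟩ := hx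
      show 0 < F x
      rw [← hxe x, h1]
      have h6 := hPb' (cb x) (hmem x).2 h2
      rcases h5 with h5 | h5
      · have hb0 : cb x ≠ 0 := by
          intro h7
          rw [h7, norm_zero] at h5
          exact hρ0.ne h5
        have h7 := hPb (cb x) (hmem x).2 hb0 h2
        rcases h4.lt_or_eq with h8 | h8
        · exact h7.trans (hvert 0 (cb x) _ 0 hnorm0 h2 h3 h8 hρ0.le)
        · rw [h8]
          exact h7
      · have h8 : Ring_t p e x < 0 := by rw [h5]; linarith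
        exact h6.trans_lt (hvert 0 (cb x) _ 0 hnorm0 h2 h3 h8 hρ0.le)
    obtain ⟨δ, hδ, hth⟩ := hKc.exists_thickening_subset_open (isOpen_lt continuous_const hcont)
      hKpos
    refine ⟨δ, hδ, fun a ha b hb t h1 h2 h3 h4 h5 => ?_⟩
    apply hth
    rw [Metric.mem_thickening_iff]
    refine ⟨p + (0 + b) + t • e, ?_, ?_⟩
    · rw [hK]
      obtain ⟨h6, h7, h8⟩ := hmk 0 hN0 b hb t
      refine ⟨h7, ?_, ?_, ?_, ?_⟩
      · rw [h8]; exact h2
      · rw [h6]; exact h3
      · rw [h6]; exact h4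
      · rw [h6, h8]; exact h5
    · rw [dist_eq_norm]
      have e1 : p + (a + b) + t • e - (p + (0 + b) + t • e) = a := by abel
      rw [e1]
      exact h1
  obtain ⟨r, hr0, hrρ, hr1⟩ : ∃ r : ℝ, 0 < r ∧ r < ρ ∧ r < r₁ := by
    refine ⟨min ρ r₁ / 2, by positivity, ?_, ?_⟩
    · linarith [min_le_left ρ r₁]
    · linarith [min_le_right ρ r₁]
  have hpp : Ring_t p e p = 0 ∧ ca p = 0 ∧ cb p = 0 := by
    have h1 := hmk 0 hN0 0 hP0 0
    rw [zero_smul, add_zero, add_zero, add_zero] at h1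
    exact h1
  -- the sphere slightly below
  obtain ⟨η₀, hη₀, hη₀ρ, hsph⟩ : ∃ η₀ : ℝ, 0 < η₀ ∧ η₀ ≤ ρ ∧ ∀ η : ℝ, 0 ≤ η → η < η₀ →
      ∀ a ∈ N, ‖a‖ = r → F (p + (a + 0) + (-η) • e) ≤ 0 := by
    have hKc : IsCompact ((N : Set V) ∩ sphere 0 r) :=
      (isCompact_sphere 0 r).inter_left (Submodule.closed_of_finiteDimensional N)
    have hev : ∀ᶠ η in nhds (0 : ℝ), ∀ a ∈ (N : Set V) ∩ sphere 0 r,
        F (p + (a + 0) + (-η) • e) < 0 := by
      apply hKc.eventually_forall_of_forall_eventually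
      rintro a ⟨haN, har⟩
      rw [mem_sphere_zero_iff_norm] at har
      have h3 : Continuous fun z : ℝ × V => F (p + (z.2 + 0) + (-z.1) • e) :=
        hcont.comp (by fun_prop)
      refine h3.continuousAt.eventually_lt continuousAt_const ?_
      show F (p + (a + 0) + (-(0 : ℝ)) • e) < 0
      rw [neg_zero, zero_smul, add_zero, add_zero]
      refine hNa a haN ?_ (by rw [har]; exact hrρ.le)
      intro h
      rw [h, norm_zero] at har
      exact hr0.ne har
    obtain ⟨δ, hδ, h⟩ := Metric.eventually_nhds_iff.1 hev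
    refine ⟨min δ ρ, lt_min hδ hρ0, min_le_right _ _, fun η h0 h1 a ha har => ?_⟩
    refine (h (y := η) ?_ a ⟨ha, by rw [mem_sphere_zero_iff_norm]; exact har⟩).le
    rw [dist_zero_right, Real.norm_eq_abs, abs_of_nonneg h0]
    exact h1.trans_le (min_le_left _ _)
  refine ⟨{x | ‖ca x‖ < r ∧ ‖cb x‖ < ρ ∧ |Ring_t p e x| < ρ},
    {x | ‖ca x‖ ≤ r ∧ ‖cb x‖ ≤ ρ ∧ |Ring_t p e x| ≤ ρ},
    ?_, ?_, ?_, ?_, ?_, η₀, hη₀, ?_⟩
  · exact (isOpen_lt hcac.norm continuous_const).inter
      ((isOpen_lt hcbc.norm continuous_const).inter (isOpen_lt hct.abs continuous_const))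
  · obtain ⟨h1, h2, h3⟩ := hpp
    exact ⟨by rw [h2, norm_zero]; exact hr0, by rw [h3, norm_zero]; exact hρ0,
      by rw [h1, abs_zero]; exact hρ0⟩
  · rintro x ⟨h1, h2, h3⟩
    exact ⟨h1.le, h2.le, h3.le⟩
  · exact (isClosed_le hcac.norm continuous_const).inter
      ((isClosed_le hcbc.norm continuous_const).inter (isClosed_le hct.abs continuous_const))
  · rintro x ⟨h1, h2, h3⟩
    rw [mem_ball]
    have h4 := hdist x
    linarith
  intro η hη hη1
  -- the ring
  have hAeq : {x | x ∈ {x | ‖ca x‖ ≤ r ∧ ‖cb x‖ ≤ ρ ∧ |Ring_t p e x| ≤ ρ} ∧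
      x ∉ {x | ‖ca x‖ < r ∧ ‖cb x‖ < ρ ∧ |Ring_t p e x| < ρ} ∧ F x ≤ 0 ∧
      ⟪x, e⟫ ≤ ⟪p, e⟫ - η} = {x | ‖ca x‖ = r ∧ ‖cb x‖ ≤ ρ ∧ -ρ ≤ Ring_t p e x ∧
      Ring_t p e x ≤ -η ∧ F x ≤ 0} := by
    ext x
    have ht : ⟪x, e⟫ ≤ ⟪p, e⟫ - η ↔ Ring_t p e x ≤ -η := by
      rw [Ring_t, inner_sub_left]
      constructor <;> intro h <;> linarith
    constructor
    · rintro ⟨⟨h1, h2, h3⟩, h4, h5, h6⟩
      have h6' := ht.1 h6
      refine ⟨?_, h2, (abs_le.1 h3).1, h6', h5⟩
      by_contra hne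
      have h7 : ‖ca x‖ < r := lt_of_le_of_ne h1 hne
      have h8 : ‖cb x‖ = ρ ∨ Ring_t p e x = -ρ := by
        by_contra h9
        push Not at h9
        refine h4 ⟨h7, lt_of_le_of_ne h2 h9.1, ?_⟩
        rw [abs_of_nonpos (by linarith)]
        have h10 := lt_of_le_of_ne (abs_le.1 h3).1 (Ne.symm h9.2)
        linarith
      have h9 := hr₁' (ca x) (hmem x).1 (cb x) (hmem x).2 (Ring_t p e x) (h7.trans hr1) h2
        (abs_le.1 h3).1 (by linarith) h8
      rw [hxe x] at h9
      linarith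
    · rintro ⟨h1, h2, h3, h4, h5⟩
      refine ⟨⟨h1.le, h2, abs_le.2 ⟨h3, by linarith⟩⟩, ?_, h5, ht.2 h4⟩
      rintro ⟨h6, -, -⟩
      exact h6.ne h1
  rw [hAeq]
  obtain ⟨A, hA⟩ : ∃ A : Set V, A = {x | ‖ca x‖ = r ∧ ‖cb x‖ ≤ ρ ∧ -ρ ≤ Ring_t p e x ∧
      Ring_t p e x ≤ -η ∧ F x ≤ 0} := ⟨_, rfl⟩
  obtain ⟨A1, hA1⟩ : ∃ A1 : Set V, A1 = {x | ‖ca x‖ = r ∧ ‖cb x‖ ≤ ρ ∧ Ring_t p e x = -η ∧
      F x ≤ 0} := ⟨_, rfl⟩
  obtain ⟨A2, hA2⟩ : ∃ A2 : Set V, A2 = {x | ‖ca x‖ = r ∧ cb x = 0 ∧ Ring_t p e x = -η} :=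
    ⟨_, rfl⟩
  rw [← hA]
  have hAc : IsCompact A := by
    refine Metric.isCompact_of_isClosed_isBounded ?_ ?_
    · rw [hA]
      exact (isClosed_eq hcac.norm continuous_const).inter
        ((isClosed_le hcbc.norm continuous_const).inter ((isClosed_le continuous_const hct).inter
        ((isClosed_le hct continuous_const).inter (isClosed_le hcont continuous_const))))
    · refine (Metric.isBounded_closedBall (x := p) (r := ρ₀)).subset ?_
      intro x hx
      rw [hA] at hx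
      obtain ⟨h1, h2, h3, h4, _⟩ := hx
      rw [mem_closedBall]
      have h5 := hdist x
      have h6 := habs x h3 (by linarith)
      linarith
  have hA1c : IsCompact A1 := by
    refine hAc.of_isClosed_subset ?_ ?_
    · rw [hA1]
      exact (isClosed_eq hcac.norm continuous_const).inter
        ((isClosed_le hcbc.norm continuous_const).inter
        ((isClosed_eq hct continuous_const).inter (isClosed_le hcont continuous_const)))
    · rw [hA, hA1]
      rintro x ⟨h1, h2, h3, h4⟩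
      exact ⟨h1, h2, by rw [h3]; linarith, h3.le, h4⟩
  -- the sphere
  have hL2 : LiftS A2 := by
    have hsp : LiftS (sphere (0 : N) 1) := liftS_sphere_ne_two (by omega)
    refine hsp.of_maps (φ := fun y : N => p + ((r • (y : V)) + 0) + (-η) • e)
      (ψ := fun x => r⁻¹ • (⟨ca x, (hmem x).1⟩ : N)) ?_ ?_ ?_ ?_ ?_
    · exact Continuous.continuousOn (by fun_prop)
    · have hc : Continuous fun x => (⟨ca x, (hmem x).1⟩ : N) := hcac.subtype_mk _
      exact (hc.const_smul r⁻¹).continuousOn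
    · intro y hy
      rw [mem_sphere_zero_iff_norm] at hy
      have hy' : ‖(y : V)‖ = 1 := hy
      obtain ⟨g1, g2, g3⟩ := hmk (r • (y : V)) (N.smul_mem _ y.2) 0 hP0 (-η)
      rw [hA2]
      refine ⟨?_, g3, g1⟩
      rw [g2, norm_smul, hy', mul_one, Real.norm_eq_abs, abs_of_pos hr0]
    · intro x hx
      rw [hA2] at hx
      rw [mem_sphere_zero_iff_norm, norm_smul, norm_inv, Real.norm_eq_abs, abs_of_pos hr0]
      have : ‖(⟨ca x, (hmem x).1⟩ : N)‖ = r := hx.1
      rw [this, inv_mul_cancel₀ hr0.ne']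
    · intro x hx
      rw [hA2] at hx
      show p + ((r • ((r⁻¹ • (⟨ca x, (hmem x).1⟩ : N) : N) : V)) + 0) + (-η) • e = x
      rw [Submodule.coe_smul, smul_smul, mul_inv_cancel₀ hr0.ne', one_smul]
      show p + (ca x + 0) + (-η) • e = x
      conv_rhs => rw [← hxe x]
      rw [hx.2.1, hx.2.2]
  have hL1 : LiftS A1 := by
    refine liftS_deform hA1c hL2 (fun t x => p + (ca x + (1 - t) • cb x) + (-η) • e) ?_ ?_ ?_ ?_ ?_
    · exact Continuous.continuousOn (by fun_prop)
    · intro t ht x hx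
      rw [hA1] at hx ⊢
      obtain ⟨h1, h2, h3, h4⟩ := hx
      have h1' : ‖ca x‖ ≤ ρ := by rw [h1]; exact hrρ.le
      have haN := (hmem x).1
      have hbP := (hmem x).2
      obtain ⟨g1, g2, g3⟩ := hmk (ca x) haN ((1 - t) • cb x) (P.smul_mem _ hbP) (-η)
      refine ⟨by rw [g2, h1], ?_, g1, ?_⟩
      · rw [g3, norm_smul, Real.norm_eq_abs, abs_of_nonneg (by linarith [ht.2])]
        nlinarith [norm_nonneg (cb x), ht.1, ht.2]
      · have hηρ : |(-η)| ≤ ρ := by
          rw [abs_neg, abs_of_nonneg hη]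
          linarith
        have hg1 : F (p + ca x + (-η) • e + (1 : ℝ) • cb x) ≤ 0 := by
          have : p + ca x + (-η) • e + (1 : ℝ) • cb x = x := by
            conv_rhs => rw [← hxe x]
            rw [h3, one_smul]
            abel
          rw [this]
          exact h4
        have hg0 : F (p + ca x + (-η) • e + (0 : ℝ) • cb x) ≤ 0 := by
          have h5 := hsph η hη hη1 (ca x) haN h1
          rw [add_zero] at h5
          rw [zero_smul, add_zero]
          exact h5
        have hconv : ConvexOn ℝ (Icc (0 : ℝ) 1)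
            fun s => F (p + ca x + (-η) • e + s • cb x) := by
          refine convexOn_of_hasDerivWithinAt2_nonneg (convex_Icc 0 1)
            (f' := fun s => fderiv ℝ F (p + ca x + (-η) • e + s • cb x) (cb x))
            (f'' := fun s => fderiv ℝ (fderiv ℝ F) (p + ca x + (-η) • e + s • cb x)
              (cb x) (cb x)) ?_ ?_ ?_ ?_
          · exact (hcont.comp (by fun_prop)).continuousOn
          · intro s _
            exact (cgLocal_deriv hF (p + ca x + (-η) • e) (cb x) s).hasDerivWithinAt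
          · intro s _
            exact (cgLocal_deriv2 hF (p + ca x + (-η) • e) (cb x) s).hasDerivWithinAt
          · intro s hs
            rw [interior_Icc] at hs
            by_cases hb0 : cb x = 0
            · rw [hb0, map_zero]
            · have hm := hball (ca x) (s • cb x) (-η) h1' (by
                rw [norm_smul, Real.norm_eq_abs, abs_of_nonneg hs.1.le]
                nlinarith [norm_nonneg (cb x), hs.2]) hηρ
              have e1 : p + (ca x + s • cb x) + (-η) • e = p + ca x + (-η) • e + s • cb x := by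
                abel
              rw [e1] at hm
              exact ((hρ _ hm).2.2 (cb x) hbP hb0).le
        have h6 := hconv.le_max_of_mem_Icc (left_mem_Icc.2 zero_le_one)
          (right_mem_Icc.2 zero_le_one) (z := 1 - t) ⟨by linarith [ht.2], by linarith [ht.1]⟩
        have h7 : F (p + ca x + (-η) • e + (1 - t) • cb x) ≤ 0 := h6.trans (max_le hg0 hg1)
        have e1 : p + (ca x + (1 - t) • cb x) + (-η) • e
            = p + ca x + (-η) • e + (1 - t) • cb x := by abel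
        rw [e1]
        exact h7
    · intro x hx
      rw [hA1] at hx
      show p + (ca x + (1 - 0 : ℝ) • cb x) + (-η) • e = x
      conv_rhs => rw [← hxe x]
      rw [hx.2.2.1, sub_zero, one_smul]
    · intro x hx
      rw [hA1] at hx
      rw [hA2]
      obtain ⟨g1, g2, g3⟩ := hmk (ca x) (hmem x).1 ((1 - 1 : ℝ) • cb x)
        (P.smul_mem _ (hmem x).2) (-η)
      refine ⟨by rw [g2]; exact hx.1, ?_, g1⟩
      rw [g3, sub_self, zero_smul]
    · rw [hA1, hA2]
      rintro x ⟨h1, h2, h3⟩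
      refine ⟨h1, by rw [h2]; exact hnorm0, h3, ?_⟩
      rw [← hxe x, h2, h3]
      exact hsph η hη hη1 (ca x) (hmem x).1 h1
  refine liftS_deform hAc hL1
    (fun t x => p + (ca x + cb x) + (Ring_t p e x + t * (-η - Ring_t p e x)) • e) ?_ ?_ ?_ ?_ ?_
  · exact Continuous.continuousOn (by fun_prop)
  · intro t ht x hx
    rw [hA] at hx ⊢
    obtain ⟨h1, h2, h3, h4, h5⟩ := hx
    have h1' : ‖ca x‖ ≤ ρ := by rw [h1]; exact hrρ.le
    obtain ⟨g1, g2, g3⟩ := hmk (ca x) (hmem x).1 (cb x) (hmem x).2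
      (Ring_t p e x + t * (-η - Ring_t p e x))
    have h6 : Ring_t p e x ≤ Ring_t p e x + t * (-η - Ring_t p e x) := by nlinarith [ht.1]
    have h7 : Ring_t p e x + t * (-η - Ring_t p e x) ≤ -η := by nlinarith [ht.2]
    refine ⟨by rw [g2, h1], by rw [g3]; exact h2, by rw [g1]; linarith, by rw [g1]; exact h7, ?_⟩
    rcases h6.lt_or_eq with h8 | h8
    · have h9 := hvert (ca x) (cb x) _ _ h1' h2 h3 h8 (by linarith)
      rw [hxe x] at h9
      exact h9.le.trans h5
    · rw [← h8, hxe x]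
      exact h5
  · intro x _
    show p + (ca x + cb x) + (Ring_t p e x + 0 * (-η - Ring_t p e x)) • e = x
    rw [zero_mul, add_zero]
    exact hxe x
  · intro x hx
    rw [hA] at hx
    rw [hA1]
    obtain ⟨h1, h2, h3, h4, h5⟩ := hx
    have h1' : ‖ca x‖ ≤ ρ := by rw [h1]; exact hrρ.le
    have e1 : Ring_t p e x + 1 * (-η - Ring_t p e x) = -η := by ring
    show _ ∧ _ ∧ _ ∧ _
    obtain ⟨g1, g2, g3⟩ := hmk (ca x) (hmem x).1 (cb x) (hmem x).2 (-η)
    simp only [e1]
    refine ⟨by rw [g2, h1], by rw [g3]; exact h2, g1, ?_⟩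
    rcases h4.lt_or_eq with h8 | h8
    · have h9 := hvert (ca x) (cb x) _ _ h1' h2 h3 h8 (by linarith)
      rw [hxe x] at h9
      exact h9.le.trans h5
    · rw [← h8, hxe x]
      exact h5
  · rw [hA, hA1]
    rintro x ⟨h1, h2, h3, h4⟩
    exact ⟨h1, h2, by rw [h3]; linarith, h3.le, h4⟩

end Pool.Schoen
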